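import Mathlib

/-!
# Two counting lemmas

* `hit`: a short list which meets many dense sets.
* `product`: a relation is small if unions of few random slices are small, in both directions.
-/

namespace Pool.Agent.L5helper51.SZ

open Finset

/-- Let `Hit i ⊆ X0`, `i ∈ I`, be sets with `|X0| ≤ D |Hit i|`. If `|I| (1 - 1 / D) ^ d < 1` then some
list of `d` elements of `X0` meets all of them. -/
theorem hit {X ι : Type*} [DecidableEq X] (X0 : Finset X) (I : Finset ι) (Hit : ι → Finset X)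
    (D d : ℕ) (hX0 : X0.Nonempty) (hH : ∀ i ∈ I, Hit i ⊆ X0) (hD : ∀ i ∈ I, #X0 ≤ D * #(Hit i))
    (hF : #I * (D - 1) ^ d < D ^ d) :
    ∃ z : Fin d → X, (∀ q, z q ∈ X0) ∧ ∀ i ∈ I, ∃ q, z q ∈ Hit i := by
  classical
  by_contra hcon
  push Not at hcon
  have h1 : Fintype.piFinset (fun _ : Fin d => X0) ⊆
      I.biUnion (fun i => Fintype.piFinset (fun _ : Fin d => X0 \ Hit i)) := by
    intro z hz
    rw [Fintype.mem_piFinset] at hz
    obtain ⟨i, hi, hi'⟩ := hcon z hz
    rw [mem_biUnion]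
    refine ⟨i, hi, ?_⟩
    rw [Fintype.mem_piFinset]
    exact fun q => mem_sdiff.2 ⟨hz q, hi' q⟩
  have h2 := (card_le_card h1).trans card_biUnion_le
  simp only [Fintype.card_piFinset_const] at h2
  have h3 : ∀ i ∈ I, #(X0 \ Hit i) ^ d * D ^ d ≤ (D - 1) ^ d * #X0 ^ d := by
    intro i hi
    rw [← mul_pow, ← mul_pow]
    apply Nat.pow_le_pow_left
    rw [card_sdiff_of_subset (hH i hi)]
    rcases Nat.eq_zero_or_pos D with rfl | hD0
    · simp
    obtain ⟨D', rfl⟩ : ∃ D', D = D' + 1 := ⟨D - 1, by omega⟩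
    have h4 := hD i hi
    have h5 : #(Hit i) ≤ #X0 := card_le_card (hH i hi)
    obtain ⟨c, hc⟩ := Nat.exists_eq_add_of_le h5
    rw [hc] at h4 ⊢
    rw [Nat.add_sub_cancel_left, Nat.add_sub_cancel]
    nlinarith
  have h4 : #X0 ^ d * D ^ d ≤ #I * (D - 1) ^ d * #X0 ^ d := by
    calc #X0 ^ d * D ^ d ≤ (∑ i ∈ I, #(X0 \ Hit i) ^ d) * D ^ d := Nat.mul_le_mul_right _ h2
      _ = ∑ i ∈ I, #(X0 \ Hit i) ^ d * D ^ d := Finset.sum_mul _ _ _
      _ ≤ ∑ _i ∈ I, (D - 1) ^ d * #X0 ^ d := Finset.sum_le_sum h3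
      _ = _ := by rw [sum_const, smul_eq_mul, mul_assoc]
  have h5 : 0 < #X0 ^ d := by
    have := hX0.card_pos
    positivity
  have h6 : #I * (D - 1) ^ d * #X0 ^ d < D ^ d * #X0 ^ d := Nat.mul_lt_mul_of_pos_right hF h5
  rw [mul_comm] at h4
  omega

theorem pow_half {n d K : ℕ} (hn : 0 < n) (h : n ≤ K * d) (hd : d ≤ n) :
    ((n - d : ℕ) : ℝ) ^ K ≤ (n : ℝ) ^ K / 2 := by
  have hnR : (0 : ℝ) < n := by exact_mod_cast hn
  have h1 : ((n - d : ℕ) : ℝ) = n * (1 - d / n) := by
    rw [Nat.cast_sub hd]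
    field_simp
  have h2 : (0 : ℝ) ≤ 1 - d / n := by
    rw [sub_nonneg, div_le_one hnR]
    exact_mod_cast hd
  have h3 : (1 - (d : ℝ) / n) ≤ Real.exp (-(d / n)) := Real.one_sub_le_exp_neg _
  have h4 : (1 - (d : ℝ) / n) ^ K ≤ Real.exp (-1) := by
    calc (1 - (d : ℝ) / n) ^ K ≤ Real.exp (-(d / n)) ^ K := pow_le_pow_left₀ h2 h3 K
      _ = Real.exp (K * (-(d / n))) := by rw [← Real.exp_nat_mul]
      _ ≤ Real.exp (-1) := by
          apply Real.exp_le_exp.2
          have : (1 : ℝ) ≤ K * (d / n) := by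
            rw [← mul_div_assoc, le_div_iff₀ hnR, one_mul]
            exact_mod_cast h
          linarith
  have h5 : Real.exp (-1) ≤ 1 / 2 := by
    rw [Real.exp_neg, one_div]
    apply inv_anti₀ (by norm_num)
    have := Real.add_one_le_exp (1 : ℝ)
    linarith
  rw [h1, mul_pow]
  have h6 : (0 : ℝ) ≤ (n : ℝ) ^ K := by positivity
  calc (n : ℝ) ^ K * (1 - d / n) ^ K ≤ (n : ℝ) ^ K * (1 / 2) :=
        mul_le_mul_of_nonneg_left (h4.trans h5) h6
    _ = _ := by ring

open Classical in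
/-- One side: if for all but `b` of the `K`-tuples `z` the union of the slices of `Y` over `z` has at
most `m` elements, then the number of elements with many partners is bounded. -/
theorem heavy {X X' : Type*} [Fintype X] [Fintype X'] (Y : X → X' → Prop) (K : ℕ)
    (Bad : Finset (Fin K → X')) (m : ℝ) (hm : 0 ≤ m) (hX' : 0 < Fintype.card X')
    (h : ∀ z, z ∉ Bad → (#{x : X | ∃ k, Y x (z k)} : ℝ) ≤ m) :
    (#{x : X | Fintype.card X' ≤ K * #{x' | Y x x'}} : ℝ) ≤
      2 * (m + Fintype.card X * #Bad / (Fintype.card X' : ℝ) ^ K) := by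
  set n := Fintype.card X' with hn
  have hnR : (0 : ℝ) < n := by exact_mod_cast hX'
  have h1 : ∑ z : Fin K → X', (#{x : X | ∃ k, Y x (z k)} : ℝ) ≤
      (n : ℝ) ^ K * m + #Bad * Fintype.card X := by
    calc ∑ z : Fin K → X', (#{x : X | ∃ k, Y x (z k)} : ℝ)
        ≤ ∑ z : Fin K → X', (m + if z ∈ Bad then (Fintype.card X : ℝ) else 0) := by
          apply Finset.sum_le_sum
          intro z _
          split_ifs with hz
          · have : (#{x : X | ∃ k, Y x (z k)} : ℝ) ≤ Fintype.card X := by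
              exact_mod_cast card_le_univ _
            linarith
          · rw [add_zero]
            exact h z hz
      _ = _ := by
          rw [Finset.sum_add_distrib, sum_const, Finset.sum_ite_mem, univ_inter, sum_const,
            nsmul_eq_mul, nsmul_eq_mul, card_univ, Fintype.card_fun, Fintype.card_fin, ← hn]
          push_cast
          ring
  have h2 : ∑ z : Fin K → X', (#{x : X | ∃ k, Y x (z k)} : ℝ) =
      ∑ x : X, (#{z : Fin K → X' | ∃ k, Y x (z k)} : ℝ) := by
    have : ∑ z : Fin K → X', #{x : X | ∃ k, Y x (z k)} =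
        ∑ x : X, #{z : Fin K → X' | ∃ k, Y x (z k)} := by
      simp only [card_filter]
      rw [Finset.sum_comm]
    exact_mod_cast this
  have h3 : ∀ x : X, n ≤ K * #{x' | Y x x'} →
      (n : ℝ) ^ K / 2 ≤ (#{z : Fin K → X' | ∃ k, Y x (z k)} : ℝ) := by
    intro x hx
    have h4 : #{z : Fin K → X' | ∃ k, Y x (z k)} + #{z : Fin K → X' | ¬ ∃ k, Y x (z k)} = n ^ K := by
      rw [card_filter_add_card_filter_not, card_univ, Fintype.card_fun, Fintype.card_fin]
    have h5 : #{z : Fin K → X' | ¬ ∃ k, Y x (z k)} = (n - #{x' | Y x x'}) ^ K := by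
      have : ({z : Fin K → X' | ¬ ∃ k, Y x (z k)} : Finset _) =
          Fintype.piFinset (fun _ : Fin K => (univ \ ({x' | Y x x'} : Finset X') : Finset X')) := by
        ext z
        simp [Fintype.mem_piFinset]
      rw [this, Fintype.card_piFinset_const, card_sdiff_of_subset (subset_univ _), card_univ]
    have h6 : (#{z : Fin K → X' | ∃ k, Y x (z k)} : ℝ) =
        (n : ℝ) ^ K - ((n - #{x' | Y x x'} : ℕ) : ℝ) ^ K := by
      rw [h5] at h4
      have : (#{z : Fin K → X' | ∃ k, Y x (z k)} : ℝ) + ((n - #{x' | Y x x'} : ℕ) : ℝ) ^ K =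
          (n : ℝ) ^ K := by exact_mod_cast h4
      linarith
    have h7 := pow_half hX' hx (by rw [hn]; exact card_le_univ _)
    linarith
  have h4 : (#{x : X | n ≤ K * #{x' | Y x x'}} : ℝ) * ((n : ℝ) ^ K / 2) ≤
      ∑ x : X, (#{z : Fin K → X' | ∃ k, Y x (z k)} : ℝ) := by
    rw [← nsmul_eq_mul, ← sum_const]
    calc ∑ _x ∈ ({x : X | n ≤ K * #{x' | Y x x'}} : Finset X), (n : ℝ) ^ K / 2
        ≤ ∑ x ∈ ({x : X | n ≤ K * #{x' | Y x x'}} : Finset X),
          (#{z : Fin K → X' | ∃ k, Y x (z k)} : ℝ) :=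
          Finset.sum_le_sum (fun x hx => h3 x (mem_filter.1 hx).2)
      _ ≤ _ := Finset.sum_le_sum_of_subset_of_nonneg (subset_univ _)
          (fun x _ _ => Nat.cast_nonneg _)
  have h5 : (0 : ℝ) < (n : ℝ) ^ K := by positivity
  have h6 : (#{x : X | n ≤ K * #{x' | Y x x'}} : ℝ) * ((n : ℝ) ^ K / 2) ≤
      (n : ℝ) ^ K * m + #Bad * Fintype.card X := by linarith
  have h7 : 2 * (m + Fintype.card X * #Bad / (n : ℝ) ^ K) =
      ((n : ℝ) ^ K * m + #Bad * Fintype.card X) / ((n : ℝ) ^ K / 2) := by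
    field_simp
  rw [h7, le_div_iff₀ (by positivity)]
  exact h6

open Classical in
/-- Both sides. -/
theorem product {X X' : Type*} [Fintype X] [Fintype X'] (Y : X → X' → Prop) (K : ℕ) (hK : 0 < K)
    (Bad : Finset (Fin K → X')) (Bad' : Finset (Fin K → X)) (δ : ℝ) (hδ0 : 0 ≤ δ) (hδ : δ ≤ 1 / 4)
    (hX : 0 < Fintype.card X) (hX' : 0 < Fintype.card X')
    (h : ∀ z, z ∉ Bad → (#{x : X | ∃ k, Y x (z k)} : ℝ) ≤ δ * Fintype.card X)
    (h' : ∀ z, z ∉ Bad' → (#{x' : X' | ∃ k, Y (z k) x'} : ℝ) ≤ δ * Fintype.card X') :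
    (#{p : X × X' | Y p.1 p.2} : ℝ) ≤ Fintype.card X * Fintype.card X' *
      (2 / K + 4 * δ ^ 2 + 5 * (#Bad / (Fintype.card X' : ℝ) ^ K) +
        #Bad' / (Fintype.card X : ℝ) ^ K) := by
  set n := Fintype.card X with hn
  set n' := Fintype.card X' with hn'
  have hnR : (0 : ℝ) < n := by exact_mod_cast hX
  have hnR' : (0 : ℝ) < n' := by exact_mod_cast hX'
  have hKR : (0 : ℝ) < K := by exact_mod_cast hK
  set e : ℝ := #Bad / (n' : ℝ) ^ K with he
  set e' : ℝ := #Bad' / (n : ℝ) ^ K with he'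
  have he0 : 0 ≤ e := by positivity
  have he0' : 0 ≤ e' := by positivity
  have he1 : e' ≤ 1 := by
    rw [he', div_le_one (by positivity)]
    have := card_le_univ Bad'
    rw [Fintype.card_fun, Fintype.card_fin, ← hn] at this
    exact_mod_cast this
  have h1 := heavy Y K Bad (δ * n) (by positivity) hX' h
  have h2 := heavy (fun x' x => Y x x') K Bad' (δ * n') (by positivity) hX h'
  rw [← hn, ← hn'] at h1 h2
  set A : Finset X := {x : X | n' ≤ K * #{x' | Y x x'}} with hA
  set A' : Finset X' := {x' : X' | n ≤ K * #{x | Y x x'}} with hA'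
  have h3 : ({p : X × X' | Y p.1 p.2} : Finset (X × X')) ⊆
      (A ×ˢ A') ∪ ((univ \ A).biUnion (fun x => ({x' | Y x x'} : Finset X').image (fun x' => (x, x')))) ∪
        ((univ \ A').biUnion (fun x' => ({x | Y x x'} : Finset X).image (fun x => (x, x')))) := by
    rintro ⟨x, x'⟩ hp
    simp only [mem_filter, mem_univ, true_and] at hp
    by_cases hx : x ∈ A
    · by_cases hx' : x' ∈ A'
      · exact mem_union_left _ (mem_union_left _ (mem_product.2 ⟨hx, hx'⟩))
      · apply mem_union_right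
        rw [mem_biUnion]
        exact ⟨x', mem_sdiff.2 ⟨mem_univ _, hx'⟩, mem_image.2 ⟨x, by simpa using hp, rfl⟩⟩
    · apply mem_union_left
      apply mem_union_right
      rw [mem_biUnion]
      exact ⟨x, mem_sdiff.2 ⟨mem_univ _, hx⟩, mem_image.2 ⟨x', by simpa using hp, rfl⟩⟩
  have h4 : (#((univ \ A).biUnion
      (fun x => ({x' | Y x x'} : Finset X').image (fun x' => (x, x')))) : ℝ) ≤ n * n' / K := by
    have h5 : (#((univ \ A).biUnion
      (fun x => ({x' | Y x x'} : Finset X').image (fun x' => (x, x')))) : ℝ) ≤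
        ∑ x ∈ univ \ A, (#{x' | Y x x'} : ℝ) := by
      rw [← Nat.cast_sum, Nat.cast_le]
      exact card_biUnion_le.trans (Finset.sum_le_sum (fun x _ => card_image_le))
    refine h5.trans ?_
    calc ∑ x ∈ univ \ A, (#{x' | Y x x'} : ℝ) ≤ ∑ x ∈ univ \ A, (n' : ℝ) / K := by
          apply Finset.sum_le_sum
          intro x hx
          have h6 : ¬ n' ≤ K * #{x' | Y x x'} := by
            intro h7
            exact (mem_sdiff.1 hx).2 (by rw [hA]; simpa using h7)
          rw [le_div_iff₀ hKR]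
          have h7 : #{x' | Y x x'} * K ≤ n' := by
            push Not at h6
            rw [mul_comm]
            exact h6.le
          exact_mod_cast h7
      _ = #(univ \ A) * ((n' : ℝ) / K) := by rw [sum_const, nsmul_eq_mul]
      _ ≤ n * ((n' : ℝ) / K) := by
          apply mul_le_mul_of_nonneg_right _ (by positivity)
          rw [hn]
          exact_mod_cast card_le_univ _
      _ = _ := by ring
  have h5 : (#((univ \ A').biUnion
      (fun x' => ({x | Y x x'} : Finset X).image (fun x => (x, x')))) : ℝ) ≤ n * n' / K := by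
    have h5 : (#((univ \ A').biUnion
      (fun x' => ({x | Y x x'} : Finset X).image (fun x => (x, x')))) : ℝ) ≤
        ∑ x' ∈ univ \ A', (#{x | Y x x'} : ℝ) := by
      rw [← Nat.cast_sum, Nat.cast_le]
      exact card_biUnion_le.trans (Finset.sum_le_sum (fun x _ => card_image_le))
    refine h5.trans ?_
    calc ∑ x' ∈ univ \ A', (#{x | Y x x'} : ℝ) ≤ ∑ x' ∈ univ \ A', (n : ℝ) / K := by
          apply Finset.sum_le_sum
          intro x' hx
          have h6 : ¬ n ≤ K * #{x | Y x x'} := by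
            intro h7
            exact (mem_sdiff.1 hx).2 (by rw [hA']; simpa using h7)
          rw [le_div_iff₀ hKR]
          have h7 : #{x | Y x x'} * K ≤ n := by
            push Not at h6
            rw [mul_comm]
            exact h6.le
          exact_mod_cast h7
      _ = #(univ \ A') * ((n : ℝ) / K) := by rw [sum_const, nsmul_eq_mul]
      _ ≤ n' * ((n : ℝ) / K) := by
          apply mul_le_mul_of_nonneg_right _ (by positivity)
          rw [hn']
          exact_mod_cast card_le_univ _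
      _ = _ := by ring
  have h6 : (#{p : X × X' | Y p.1 p.2} : ℝ) ≤ #A * #A' + n * n' / K + n * n' / K := by
    have h7 : #{p : X × X' | Y p.1 p.2} ≤ #(A ×ˢ A') + #((univ \ A).biUnion
        (fun x => ({x' | Y x x'} : Finset X').image (fun x' => (x, x')))) + #((univ \ A').biUnion
        (fun x' => ({x | Y x x'} : Finset X).image (fun x => (x, x')))) :=
      (card_le_card h3).trans ((card_union_le _ _).trans (Nat.add_le_add_right (card_union_le _ _) _))
    rw [card_product] at h7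
    have h8 : (#{p : X × X' | Y p.1 p.2} : ℝ) ≤ #A * #A' + #((univ \ A).biUnion
        (fun x => ({x' | Y x x'} : Finset X').image (fun x' => (x, x')))) + #((univ \ A').biUnion
        (fun x' => ({x | Y x x'} : Finset X).image (fun x => (x, x')))) := by exact_mod_cast h7
    linarith
  have h7 : (#A : ℝ) ≤ 2 * (δ + e) * n := by
    refine h1.trans (le_of_eq ?_)
    rw [he]
    ring
  have h8 : (#A' : ℝ) ≤ 2 * (δ + e') * n' := by
    refine h2.trans (le_of_eq ?_)
    rw [he']
    ring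
  have h9 : (#A : ℝ) * #A' ≤ (2 * (δ + e) * n) * (2 * (δ + e') * n') :=
    mul_le_mul h7 h8 (by positivity) (by positivity)
  have h10 : (δ + e) * (δ + e') * 4 ≤ 4 * δ ^ 2 + 5 * e + e' := by
    have h11 : δ * e ≤ 1 / 4 * e := mul_le_mul_of_nonneg_right hδ he0
    have h12 : δ * e' ≤ 1 / 4 * e' := mul_le_mul_of_nonneg_right hδ he0'
    have h13 : e * e' ≤ e * 1 := mul_le_mul_of_nonneg_left he1 he0
    nlinarith
  have h11 : (2 * (δ + e) * n) * (2 * (δ + e') * n') = (n * n' : ℝ) * ((δ + e) * (δ + e') * 4) := by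
    ring
  have h12 : (n * n' : ℝ) * ((δ + e) * (δ + e') * 4) ≤ (n * n' : ℝ) * (4 * δ ^ 2 + 5 * e + e') :=
    mul_le_mul_of_nonneg_left h10 (by positivity)
  calc (#{p : X × X' | Y p.1 p.2} : ℝ) ≤ #A * #A' + n * n' / K + n * n' / K := h6
    _ ≤ (n * n' : ℝ) * (4 * δ ^ 2 + 5 * e + e') + n * n' / K + n * n' / K := by
        rw [h11] at h9
        linarith
    _ = _ := by ring

end Pool.Agent.L5helper51.SZ
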