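import Pool.Agent.L5helper51.SZ.Graph
import Pool.Agent.L5helper51.SZ.Hit

/-!
# A saturated chain of graphs

`C 0 ≤ C 1 ≤ ...` is a chain of pairs of disjoint sets (source side, sink side) such that, for every
part of the program, all contents at its start and all contexts, most of the bundles (added to `C c`)
switch on only registers which are switched on by `C (c + 1)`.
-/

namespace Pool.Agent.L5helper51.SZ

open Pool.Agent.L5helper51.SX (Lay Tr nT nT_zero nT_succ nT_pos pth pth_zero pth_last pth_left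
  pth_right card_pth)

open Finset

variable {V R : Type*} {M ℓ : ℕ} {s t : V} (Λ : Lay V M ℓ s t)

theorem mem_fil {α : Type*} {p : α → Prop} {inst : DecidablePred p} {s : Finset α} {a : α}
    (h : a ∈ @Finset.filter α p inst s) : p a := (Finset.mem_filter.1 h).2

/-- The vertices of the layered graph. -/
def Nod (Λ : Lay V M ℓ s t) : Set V := {o | ∃ j ≤ ℓ, ∃ a, o = Λ.node j a}

section ctx

open Classical in
/-- the set of a code -/
noncomputable def decode {κ : ℕ} (α : Fin κ → Option (Fin (ℓ + 1) × Fin M)) : Finset V :=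
  univ.biUnion (fun i => (α i).elim ∅ (fun p => {Λ.node p.1 p.2}))

theorem exists_decode {κ : ℕ} (A : Finset V) (hA : ∀ o ∈ A, o ∈ Nod Λ) (hκ : #A ≤ κ) :
    ∃ α : Fin κ → Option (Fin (ℓ + 1) × Fin M), decode Λ α = A := by
  classical
  choose j hj a ha using hA
  refine ⟨fun i => if h : (i : ℕ) < #A then
    some (⟨j _ (A.equivFin.symm ⟨i, h⟩).2, Nat.lt_succ_of_le (hj _ _)⟩,
      a _ (A.equivFin.symm ⟨i, h⟩).2) else none, ?_⟩
  ext o
  rw [decode, mem_biUnion]
  constructor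
  · rintro ⟨i, -, hi⟩
    by_cases h : (i : ℕ) < #A
    · rw [dif_pos h] at hi
      simp only [Option.elim, mem_singleton] at hi
      rw [hi, ← ha _ (A.equivFin.symm ⟨i, h⟩).2]
      exact (A.equivFin.symm ⟨i, h⟩).2
    · rw [dif_neg h] at hi
      simp at hi
  · intro ho
    refine ⟨⟨A.equivFin ⟨o, ho⟩, (A.equivFin ⟨o, ho⟩).2.trans_le hκ⟩, mem_univ _, ?_⟩
    rw [dif_pos (A.equivFin ⟨o, ho⟩).2]
    simp only [Option.elim, mem_singleton, Fin.eta, Equiv.symm_apply_apply]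
    exact ha o ho

end ctx

open Classical in
/-- Add a set of vertices to the source side (`b = true`) or to the sink side (`b = false`). -/
noncomputable def up (b : Bool) (C : Finset V × Finset V) (X : Finset V) : Finset V × Finset V :=
  if b then (C.1 ∪ X, C.2) else (C.1, C.2 ∪ X)

open Classical in
/-- The graph of the context `A`, `B` and the pair `C`. -/
noncomputable def gc (Λ : Lay V M ℓ s t) (A B : Finset V) (C : Finset V × Finset V) : Set (V × V) :=
  gr Λ (A ∪ C.1) (B ∪ C.2)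

theorem gc_mono {A A' B B' : Finset V} {C C' : Finset V × Finset V} (hA : A ⊆ A') (hB : B ⊆ B')
    (hC : C.1 ⊆ C'.1 ∧ C.2 ⊆ C'.2) : gc Λ A B C ⊆ gc Λ A' B' C' := by
  classical
  exact gr_mono Λ (union_subset_union hA hC.1) (union_subset_union hB hC.2)

theorem up_mono {b : Bool} {C C' : Finset V × Finset V} {X X' : Finset V}
    (hC : C.1 ⊆ C'.1 ∧ C.2 ⊆ C'.2) (hX : X ⊆ X') :
    (up b C X).1 ⊆ (up b C' X').1 ∧ (up b C X).2 ⊆ (up b C' X').2 := by
  classical
  cases b
  · exact ⟨hC.1, union_subset_union hC.2 hX⟩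
  · exact ⟨union_subset_union hC.1 hX, hC.2⟩

theorem le_up (b : Bool) (C : Finset V × Finset V) (X : Finset V) :
    C.1 ⊆ (up b C X).1 ∧ C.2 ⊆ (up b C X).2 := by
  classical
  cases b
  · exact ⟨subset_rfl, subset_union_left⟩
  · exact ⟨subset_union_left, subset_rfl⟩

open Classical in
/-- All but the fraction `1 / D` of the bundles added to `C` switch on only registers which are
switched on by `C'`. -/
def Good (Λ : Lay V M ℓ s t) (P : List (Step V R)) (K κ D : ℕ) (b : Bool) (c x m : ℕ)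
    (C C' : Finset V × Finset V) : Prop :=
  ∀ W, W <:+: P → ∀ σ : Set R, ∀ A B : Finset V, (∀ o ∈ A, o ∈ Nod Λ) → (∀ o ∈ B, o ∈ Nod Λ) →
    #A + #B ≤ κ → D * #{Z : Fin M × (Fin K → Tr M m) |
      ¬ exec (gc Λ A B (up b C (bun Λ c x m Z))) W σ ⊆ exec (gc Λ A B C') W σ} ≤
        Fintype.card (Fin M × (Fin K → Tr M m))

theorem Good.mono {P : List (Step V R)} {K κ D : ℕ} {b : Bool} {c x m : ℕ}
    {C C' C'' : Finset V × Finset V} (h : Good Λ P K κ D b c x m C C')
    (hC : C'.1 ⊆ C''.1 ∧ C'.2 ⊆ C''.2) : Good Λ P K κ D b c x m C C'' := by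
  classical
  intro W hW σ A B hA hB hκ
  refine le_trans (Nat.mul_le_mul_left _ (card_le_card ?_)) (h W hW σ A B hA hB hκ)
  intro Z hZ
  rw [mem_filter] at hZ ⊢
  exact ⟨hZ.1, fun h' => hZ.2 (h'.trans
    (exec_mono W subset_rfl (gc_mono Λ subset_rfl subset_rfl hC)))⟩

/-- the number of the situations -/
def FF (n r κ N : ℕ) : ℕ := (n + 1) * (n + 1) * 2 ^ r * (N + 1) ^ κ * (N + 1) ^ κ * 2 ^ r

/-- the vertices are in inner layers -/
def Inn (Λ : Lay V M ℓ s t) (C : Finset V × Finset V) : Prop :=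
  ∀ o, o ∈ C.1 ∨ o ∈ C.2 → ∃ j a, 0 < j ∧ j < ℓ ∧ o = Λ.node j a

theorem one_type [Fintype R] {P : List (Step V R)} {K κ D d : ℕ} (hK : 0 < K) (hD : 0 < D)
    (hM : 0 < M) (b : Bool) {c x m k : ℕ} (hl : x + 2 ^ m ≤ ℓ) (hc0 : 0 < c) (hc : c < ℓ)
    (hm : m ≤ k) (C Cur : Finset V × Finset V) (hCur : C.1 ⊆ Cur.1 ∧ C.2 ⊆ Cur.2)
    (hdis : Disjoint Cur.1 Cur.2) (hI : Inn Λ Cur)
    (hbd : 2 * D * (K + 1) * (#Cur.1 + #Cur.2) ≤ M)
    (hF : FF P.length (Fintype.card R) κ ((ℓ + 1) * M) * (2 * D - 1) ^ d < (2 * D) ^ d) :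
    ∃ C' : Finset V × Finset V, (Cur.1 ⊆ C'.1 ∧ Cur.2 ⊆ C'.2) ∧ Disjoint C'.1 C'.2 ∧ Inn Λ C' ∧
      #C'.1 + #C'.2 ≤ #Cur.1 + #Cur.2 + d * (K * 2 ^ k) ∧ Good Λ P K κ D b c x m C C' := by
  classical
  set X := Fin M × (Fin K → Tr M m) with hX
  have hcardX : 0 < Fintype.card X := by
    change 0 < Fintype.card (Fin M × (Fin K → Tr M m))
    rw [Fintype.card_prod, Fintype.card_fun, Fintype.card_fin, Fintype.card_fin]
    have : 0 < Fintype.card (Tr M m) := nT_pos hM m
    positivity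
  set O : Finset V := if b then Cur.2 else Cur.1 with hO
  have hOc : #O ≤ #Cur.1 + #Cur.2 := by
    rw [hO]
    split_ifs <;> omega
  set X0 : Finset X := {Z | Disjoint (bun Λ c x m Z) O} with hX0
  have h1 : #(univ \ X0) * M ≤ #O * ((K + 1) * Fintype.card X) := by
    have h2 : (univ \ X0 : Finset X) ⊆ O.biUnion (fun o => ({Z : X | o ∈ bun Λ c x m Z} : Finset X)) := by
      intro Z hZ
      rw [mem_sdiff, hX0, mem_filter, not_and] at hZ
      have h3 := hZ.2 (mem_univ _)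
      rw [Finset.not_disjoint_iff] at h3
      obtain ⟨o, ho, ho'⟩ := h3
      rw [mem_biUnion]
      exact ⟨o, ho', by simpa using ho⟩
    calc #(univ \ X0) * M ≤ (∑ o ∈ O, #{Z : X | o ∈ bun Λ c x m Z}) * M :=
          Nat.mul_le_mul_right _ ((card_le_card h2).trans card_biUnion_le)
      _ = ∑ o ∈ O, #{Z : X | o ∈ bun Λ c x m Z} * M := Finset.sum_mul _ _ _
      _ ≤ ∑ _o ∈ O, (K + 1) * Fintype.card X :=
          Finset.sum_le_sum (fun o _ => card_mem_bun Λ hl hc0 hc o)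
      _ = _ := by rw [sum_const, smul_eq_mul]
  have h2 : 2 * D * #(univ \ X0) ≤ Fintype.card X := by
    have h3 : (2 * D * #(univ \ X0)) * M ≤ Fintype.card X * M := by
      calc (2 * D * #(univ \ X0)) * M = 2 * D * (#(univ \ X0) * M) := by ring
        _ ≤ 2 * D * (#O * ((K + 1) * Fintype.card X)) := Nat.mul_le_mul_left _ h1
        _ = (2 * D * (K + 1) * #O) * Fintype.card X := by ring
        _ ≤ (2 * D * (K + 1) * (#Cur.1 + #Cur.2)) * Fintype.card X :=
            Nat.mul_le_mul_right _ (Nat.mul_le_mul_left _ hOc)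
        _ ≤ M * Fintype.card X := Nat.mul_le_mul_right _ hbd
        _ = _ := mul_comm _ _
    exact Nat.le_of_mul_le_mul_right h3 hM
  have h3 : #(univ \ X0) + #X0 = Fintype.card X := by
    rw [card_sdiff_of_subset (subset_univ _), card_univ]
    exact Nat.sub_add_cancel (card_le_univ _)
  have hne : X0.Nonempty := by
    rw [← card_pos]
    by_contra hcon
    have h4 : #X0 = 0 := by omega
    have h5 : 1 * #(univ \ X0) ≤ D * #(univ \ X0) := Nat.mul_le_mul_right _ hD
    have h6 : 2 * D * #(univ \ X0) = 2 * (D * #(univ \ X0)) := by ring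
    omega
  -- the situations
  set Idx := (Fin (P.length + 1) × Fin (P.length + 1)) × Set R ×
    (Fin κ → Option (Fin (ℓ + 1) × Fin M)) × (Fin κ → Option (Fin (ℓ + 1) × Fin M)) × Set R
    with hIdx
  set W : Idx → List (Step V R) := fun i => (P.drop i.1.1).take i.1.2 with hW
  set on : Idx → X → Prop := fun i Z => ∃ a ∈ i.2.2.2.2, a ∈ exec (gc Λ (decode Λ i.2.2.1)
    (decode Λ i.2.2.2.1) (up b C (bun Λ c x m Z))) (W i) i.2.1 with hon
  set I : Finset Idx := {i | Fintype.card X ≤ D * #{Z : X | on i Z}} with hI'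
  set Hit : Idx → Finset X := fun i => {Z ∈ X0 | on i Z} with hHit
  have hcardI : #I ≤ FF P.length (Fintype.card R) κ ((ℓ + 1) * M) := by
    refine (card_le_univ _).trans (le_of_eq ?_)
    change Fintype.card ((Fin (P.length + 1) × Fin (P.length + 1)) × Set R ×
      (Fin κ → Option (Fin (ℓ + 1) × Fin M)) × (Fin κ → Option (Fin (ℓ + 1) × Fin M)) × Set R) = _
    rw [FF]
    simp only [Fintype.card_prod, Fintype.card_fun, Fintype.card_option, Fintype.card_fin,
      Fintype.card_set]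
    ring
  obtain ⟨z, hz, hz'⟩ := hit X0 I Hit (2 * D) d hne (fun i _ => filter_subset _ _) (by
    intro i hi
    rw [hI', mem_filter] at hi
    have h4 : #{Z : X | on i Z} ≤ #(Hit i) + #(univ \ X0) := by
      refine le_trans (card_le_card ?_) (card_union_le _ _)
      intro Z hZ
      rw [mem_union, hHit, mem_filter, mem_sdiff]
      by_cases h : Z ∈ X0
      · exact Or.inl ⟨h, by simpa using hZ⟩
      · exact Or.inr ⟨mem_univ _, h⟩
    have h5 : 2 * Fintype.card X ≤ 2 * D * #(Hit i) + 2 * D * #(univ \ X0) := by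
      calc 2 * Fintype.card X ≤ 2 * (D * #{Z : X | on i Z}) := Nat.mul_le_mul_left _ hi.2
        _ ≤ 2 * (D * (#(Hit i) + #(univ \ X0))) :=
            Nat.mul_le_mul_left _ (Nat.mul_le_mul_left _ h4)
        _ = _ := by ring
    have h6 : #X0 ≤ Fintype.card X := card_le_univ _
    omega) (lt_of_le_of_lt (Nat.mul_le_mul_right _ hcardI) hF)
  set U : Finset V := univ.biUnion (fun q => bun Λ c x m (z q)) with hU
  have hUO : Disjoint U O := by
    rw [hU, Finset.disjoint_biUnion_left]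
    intro q _
    have := hz q
    rw [hX0, mem_filter] at this
    exact this.2
  have hUc : #U ≤ d * (K * 2 ^ k) := by
    refine card_biUnion_le.trans ?_
    calc ∑ q : Fin d, #(bun Λ c x m (z q)) ≤ ∑ _q : Fin d, K * 2 ^ k := by
          apply Finset.sum_le_sum
          intro q _
          exact (card_bun Λ hK c x m (z q)).trans
            (Nat.mul_le_mul_left _ (Nat.pow_le_pow_right (by norm_num) hm))
      _ = _ := by simp
  refine ⟨up b Cur U, le_up b Cur U, ?_, ?_, ?_, ?_⟩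
  · cases b
    · simp only [up, Bool.false_eq_true, if_false] at hO ⊢
      rw [disjoint_union_right]
      refine ⟨hdis, ?_⟩
      rw [hO] at hUO
      simpa using hUO.symm
    · simp only [up, if_true] at hO ⊢
      rw [disjoint_union_left]
      refine ⟨hdis, ?_⟩
      rw [hO] at hUO
      simpa using hUO
  · intro o ho
    have h4 : o ∈ Cur.1 ∨ o ∈ Cur.2 ∨ o ∈ U := by
      cases b
      · simp only [up, Bool.false_eq_true, if_false, mem_union] at ho
        tauto
      · simp only [up, if_true, mem_union] at ho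
        tauto
    rcases h4 with h4 | h4 | h4
    · exact hI o (Or.inl h4)
    · exact hI o (Or.inr h4)
    · rw [hU, mem_biUnion] at h4
      obtain ⟨q, -, hq⟩ := h4
      exact layer_bun Λ hl hc0 hc _ hq
  · cases b
    · simp only [up, Bool.false_eq_true, if_false]
      have := card_union_le Cur.2 U
      omega
    · simp only [up, if_true]
      have := card_union_le Cur.1 U
      omega
  · intro W' hW' σ A B hA hB hκ
    by_contra hcon
    push Not at hcon
    obtain ⟨α, rfl⟩ := exists_decode Λ (κ := κ) A hA (by omega)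
    obtain ⟨β, rfl⟩ := exists_decode Λ (κ := κ) B hB (by omega)
    obtain ⟨pre, suf, hps⟩ := hW'
    have hlen : pre.length + W'.length ≤ P.length := by
      rw [← hps]
      simp only [List.length_append]
      omega
    set i : Idx := ((⟨pre.length, by omega⟩, ⟨W'.length, by omega⟩), σ, α, β,
      (exec (gc Λ (decode Λ α) (decode Λ β) (up b Cur U)) W' σ)ᶜ) with hi
    have hWi : W i = W' := by
      simp only [hW, hi]
      rw [← hps, List.append_assoc, List.drop_left, List.take_left]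
    have hiI : i ∈ I := by
      rw [hI', mem_filter]
      refine ⟨mem_univ _, ?_⟩
      refine le_trans hcon.le (Nat.mul_le_mul_left _ (card_le_card ?_))
      intro Z hZ
      simp only [mem_filter, mem_univ, true_and, hon, Set.not_subset] at hZ ⊢
      rw [hWi]
      obtain ⟨a, ha, ha'⟩ := hZ
      exact ⟨a, ha', ha⟩
    obtain ⟨q, hq⟩ := hz' i hiI
    obtain ⟨a, ha, ha'⟩ := mem_fil hq
    rw [hWi] at ha'
    apply ha
    refine exec_mono W' subset_rfl (gc_mono Λ subset_rfl subset_rfl (up_mono hCur ?_)) ha'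
    intro o ho
    rw [hU, mem_biUnion]
    exact ⟨q, mem_univ _, ho⟩

/-- A type of bundles. -/
def Valid (ℓ k : ℕ) (τ : Bool × ℕ × ℕ × ℕ) : Prop :=
  τ.2.2.1 + 2 ^ τ.2.2.2 ≤ ℓ ∧ 0 < τ.2.1 ∧ τ.2.1 < ℓ ∧ τ.2.2.2 ≤ k

theorem all_types [Fintype R] {P : List (Step V R)} {K κ D d k : ℕ} (hK : 0 < K) (hD : 0 < D)
    (hM : 0 < M)
    (hF : FF P.length (Fintype.card R) κ ((ℓ + 1) * M) * (2 * D - 1) ^ d < (2 * D) ^ d) :
    ∀ (L : List (Bool × ℕ × ℕ × ℕ)), (∀ τ ∈ L, Valid ℓ k τ) →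
    ∀ (C Cur : Finset V × Finset V), (C.1 ⊆ Cur.1 ∧ C.2 ⊆ Cur.2) → Disjoint Cur.1 Cur.2 →
      Inn Λ Cur → 2 * D * (K + 1) * (#Cur.1 + #Cur.2 + L.length * (d * (K * 2 ^ k))) ≤ M →
      ∃ C' : Finset V × Finset V, (Cur.1 ⊆ C'.1 ∧ Cur.2 ⊆ C'.2) ∧ Disjoint C'.1 C'.2 ∧ Inn Λ C' ∧
      #C'.1 + #C'.2 ≤ #Cur.1 + #Cur.2 + L.length * (d * (K * 2 ^ k)) ∧
      ∀ τ ∈ L, Good Λ P K κ D τ.1 τ.2.1 τ.2.2.1 τ.2.2.2 C C'
  | [], _, C, Cur, hC, hdis, hI, _ => by
    exact ⟨Cur, ⟨subset_rfl, subset_rfl⟩, hdis, hI, by simp, by simp⟩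
  | τ :: L, hL, C, Cur, hC, hdis, hI, hbd => by
    obtain ⟨v1, v2, v3, v4⟩ := hL τ List.mem_cons_self
    have hlen : (τ :: L).length = L.length + 1 := rfl
    rw [hlen] at hbd ⊢
    have hadd : (L.length + 1) * (d * (K * 2 ^ k)) = L.length * (d * (K * 2 ^ k)) +
        d * (K * 2 ^ k) := by ring
    rw [hadd] at hbd ⊢
    obtain ⟨C1, h1, h2, h3, h4, h5⟩ := one_type Λ (P := P) hK hD hM τ.1 v1 v2 v3 v4 C Cur hC hdis hI
      (le_trans (Nat.mul_le_mul_left _ (by omega)) hbd) hF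
    obtain ⟨C2, g1, g2, g3, g4, g5⟩ := all_types hK hD hM hF L
      (fun τ' hτ' => hL τ' (List.mem_cons_of_mem _ hτ')) C C1
      ⟨hC.1.trans h1.1, hC.2.trans h1.2⟩ h2 h3
      (le_trans (Nat.mul_le_mul_left _ (by omega)) hbd)
    refine ⟨C2, ⟨h1.1.trans g1.1, h1.2.trans g1.2⟩, g2, g3, by omega, ?_⟩
    intro τ' hτ'
    rcases List.mem_cons.1 hτ' with rfl | hτ'
    · exact h5.mono Λ g1
    · exact g5 τ' hτ'

/-- The chain. -/
theorem chain [Fintype R] {P : List (Step V R)} {K κ D d k : ℕ} (hK : 0 < K) (hD : 0 < D)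
    (hM : 0 < M)
    (hF : FF P.length (Fintype.card R) κ ((ℓ + 1) * M) * (2 * D - 1) ^ d < (2 * D) ^ d)
    (L : List (Bool × ℕ × ℕ × ℕ)) (hL : ∀ τ ∈ L, Valid ℓ k τ) :
    ∀ Q : ℕ, 2 * D * (K + 1) * (Q * (L.length * (d * (K * 2 ^ k)))) ≤ M →
    ∃ C : ℕ → Finset V × Finset V, C 0 = (∅, ∅) ∧
      (∀ c < Q, ((C c).1 ⊆ (C (c + 1)).1 ∧ (C c).2 ⊆ (C (c + 1)).2) ∧
        ∀ τ ∈ L, Good Λ P K κ D τ.1 τ.2.1 τ.2.2.1 τ.2.2.2 (C c) (C (c + 1))) ∧
      (∀ c ≤ Q, Disjoint (C c).1 (C c).2 ∧ Inn Λ (C c) ∧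
        #(C c).1 + #(C c).2 ≤ c * (L.length * (d * (K * 2 ^ k))))
  | 0, _ => by
    refine ⟨fun _ => (∅, ∅), rfl, by intro c hc; omega, ?_⟩
    intro c hc
    refine ⟨by simp, ?_, by simp⟩
    rintro o (ho | ho)
    · simp at ho
    · simp at ho
  | Q + 1, hbd => by
    have hadd : (Q + 1) * (L.length * (d * (K * 2 ^ k))) = Q * (L.length * (d * (K * 2 ^ k))) +
        L.length * (d * (K * 2 ^ k)) := by ring
    rw [hadd] at hbd
    obtain ⟨C, h0, h1, h2⟩ := chain hK hD hM hF L hL Q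
      (le_trans (Nat.mul_le_mul_left _ (by omega)) hbd)
    obtain ⟨g1, g2, g3⟩ := h2 Q le_rfl
    obtain ⟨C', f1, f2, f3, f4, f5⟩ := all_types Λ (P := P) hK hD hM hF L hL (C Q) (C Q)
      ⟨subset_rfl, subset_rfl⟩ g1 g2 (le_trans (Nat.mul_le_mul_left _ (by omega)) hbd)
    refine ⟨fun c => if c ≤ Q then C c else C', by simp [h0], ?_, ?_⟩
    · intro c hc
      rcases Nat.lt_succ_iff_lt_or_eq.1 hc with hc | rfl
      · dsimp only
        rw [if_pos (by omega : c ≤ Q), if_pos (by omega : c + 1 ≤ Q)]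
        exact h1 c hc
      · dsimp only
        rw [if_pos le_rfl, if_neg (by omega : ¬ c + 1 ≤ c)]
        exact ⟨f1, f5⟩
    · intro c hc
      dsimp only
      by_cases h : c ≤ Q
      · rw [if_pos h]
        exact h2 c h
      · have : c = Q + 1 := by omega
        subst this
        rw [if_neg h]
        exact ⟨f2, f3, by omega⟩

end Pool.Agent.L5helper51.SZ
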