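import Mathlib

/-!
# Monotone programs with one-bit registers

A step visits a vertex `x` and replaces the contents of all registers simultaneously by arbitrary
monotone Boolean functions of the old contents and of the edges at `x`.
-/

namespace Pool.Agent.L5helper51.SZ

/-- A step of a monotone program. The contents of the registers are given by the set of the registers
which contain `1`. The step visits the vertex `x`; if `σ` are the old contents and `E` is the set of
the edges which start or end in `x`, then `f σ E` are the new contents. -/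
structure Step (V R : Type*) where
  /-- the visited vertex -/
  x : V
  /-- the new contents -/
  f : Set R → Set (V × V) → Set R
  /-- the step is monotone -/
  mono : ∀ σ σ' : Set R, ∀ E E' : Set (V × V), σ ⊆ σ' → E ⊆ E' → f σ E ⊆ f σ' E'

variable {V R : Type*}

/-- The effect of a step on the contents of the registers, for the graph with the edges `H`. -/
def Step.exec (H : Set (V × V)) (σ : Set R) (S : Step V R) : Set R :=
  S.f σ {e | e ∈ H ∧ (e.1 = S.x ∨ e.2 = S.x)}

/-- The contents of the registers after the program has been executed (from left to right). -/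
def exec (H : Set (V × V)) (P : List (Step V R)) (σ : Set R) : Set R :=
  P.foldl (fun σ S => S.exec H σ) σ

theorem exec_nil (H : Set (V × V)) (σ : Set R) : exec H [] σ = σ := rfl

theorem exec_cons (H : Set (V × V)) (S : Step V R) (P : List (Step V R)) (σ : Set R) :
    exec H (S :: P) σ = exec H P (S.exec H σ) := rfl

theorem exec_append (H : Set (V × V)) (P Q : List (Step V R)) (σ : Set R) :
    exec H (P ++ Q) σ = exec H Q (exec H P σ) := by
  simp [exec, List.foldl_append]

/-- Monotonicity; only the edges at visited vertices matter. -/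
theorem exec_sub {H H' : Set (V × V)} : ∀ (P : List (Step V R)) (σ σ' : Set R), σ ⊆ σ' →
    (∀ S ∈ P, ∀ e : V × V, (e.1 = S.x ∨ e.2 = S.x) → e ∈ H → e ∈ H') → exec H P σ ⊆ exec H' P σ'
  | [], σ, σ', h, _ => h
  | S :: P, σ, σ', h, hH => by
    rw [exec_cons, exec_cons]
    apply exec_sub P _ _ _ (fun S' hS' => hH S' (List.mem_cons_of_mem _ hS'))
    exact S.mono _ _ _ _ h (fun e he => ⟨hH S List.mem_cons_self e he.2 he.1, he.2⟩)

theorem exec_mono {H H' : Set (V × V)} (P : List (Step V R)) {σ σ' : Set R} (h : σ ⊆ σ')
    (hH : H ⊆ H') : exec H P σ ⊆ exec H' P σ' :=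
  exec_sub P σ σ' h (fun _ _ _ _ h => hH h)

/-- `t` can be reached from `s` in the graph with the edges `H`. -/
def Reach (H : Set (V × V)) (s t : V) : Prop :=
  Relation.ReflTransGen (fun x y => (x, y) ∈ H) s t

/-- Acyclic graphs: some function increases along every edge. -/
def Acyclic (H : Set (V × V)) : Prop := ∃ L : V → ℕ, ∀ e ∈ H, L e.1 < L e.2

/-- Undirected graphs. -/
def Undirected (H : Set (V × V)) : Prop := ∀ x y, (x, y) ∈ H → (y, x) ∈ H

/-- An elementary step changes at most one register `a`: it gets the value of a variable, a constant,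
or the disjunction or the conjunction of the contents of two registers. -/
def Step.Elementary (S : Step V R) : Prop :=
  ∃ a, (∀ b, b ≠ a → ∀ σ E, b ∈ S.f σ E ↔ b ∈ σ) ∧
    ((∃ y, ∀ σ E, a ∈ S.f σ E ↔ (S.x, y) ∈ E) ∨ (∀ σ E, a ∈ S.f σ E) ∨ (∀ σ E, a ∉ S.f σ E) ∨
      (∃ b c, ∀ σ E, a ∈ S.f σ E ↔ b ∈ σ ∨ c ∈ σ) ∨ (∃ b c, ∀ σ E, a ∈ S.f σ E ↔ b ∈ σ ∧ c ∈ σ))

end Pool.Agent.L5helper51.SZ
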