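import Pool.Agent.L5helper51.SZ.Def
import Pool.Agent.L5helper51.SX.Layer
import Pool.Agent.L5helper51.SX.Tree

/-!
# Graphs with a source side and a sink side, and bundles of paths
-/

namespace Pool.Agent.L5helper51.SZ

open Pool.Agent.L5helper51.SX (Lay Tr nT nT_zero nT_succ nT_pos pth pth_zero pth_last pth_left
  pth_right card_pth)

open Finset

variable {V : Type*} {M ℓ : ℕ} {s t : V} (Λ : Lay V M ℓ s t)

/-- All pairs from a layer to the next one inside `A`, and inside `B`. -/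
def gr (A B : Finset V) : Set (V × V) :=
  {e | Λ.L e.2 = Λ.L e.1 + 1 ∧ (e.1 ∈ A ∧ e.2 ∈ A ∨ e.1 ∈ B ∧ e.2 ∈ B)}

theorem gr_mono {A A' B B' : Finset V} (hA : A ⊆ A') (hB : B ⊆ B') : gr Λ A B ⊆ gr Λ A' B' := by
  rintro e ⟨h1, h2⟩
  exact ⟨h1, h2.imp (fun h => ⟨hA h.1, hA h.2⟩) (fun h => ⟨hB h.1, hB h.2⟩)⟩

/-- The vertex `t` cannot be reached from `s`. -/
theorem not_reach {A B : Finset V} (hs : s ∈ A) (ht : t ∈ B) (hd : Disjoint A B) :
    ¬ Reach (gr Λ A B) s t := by
  intro h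
  have : ∀ x, Reach (gr Λ A B) s x → x ∈ A := by
    intro x hx
    unfold Reach at hx
    induction hx with
    | refl => exact hs
    | tail _ he ih =>
      rcases he.2 with h1 | h1
      · exact h1.2
      · exact absurd h1.1 (Finset.disjoint_left.1 hd ih)
  exact Finset.disjoint_left.1 hd (this t h) ht

/-- The edges of the path of the tree `z` with the end points `u`, `v`, starting in layer `x`. -/
def pe (x i : ℕ) (u : Fin M) (z : Tr M i) (v : Fin M) : Set (V × V) :=
  {e | ∃ j < 2 ^ i, e = (Λ.node (x + j) (pth i u z v j), Λ.node (x + j + 1) (pth i u z v (j + 1)))}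

theorem pe_succ (x i : ℕ) (u : Fin M) (z : Tr M (i + 1)) (v : Fin M) :
    pe Λ x (i + 1) u z v ⊆ pe Λ x i u z.1 z.2.1 ∪ pe Λ (x + 2 ^ i) i z.2.1 z.2.2 v := by
  rintro e ⟨j, hj, rfl⟩
  have h2 : 2 ^ (i + 1) = 2 ^ i + 2 ^ i := by ring
  by_cases h : j < 2 ^ i
  · left
    refine ⟨j, h, ?_⟩
    rw [pth_left _ _ _ _ h.le, pth_left _ _ _ _ (by omega : j + 1 ≤ 2 ^ i)]
  · right
    obtain ⟨j', rfl⟩ := Nat.exists_eq_add_of_le (not_lt.1 h)
    refine ⟨j', by omega, ?_⟩
    rw [pth_right, add_assoc (2 ^ i) j' 1, pth_right, ← add_assoc x]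

/-- Every path from `s` to `t` is a path. -/
theorem reach_pe {H : Set (V × V)} (x i : ℕ) (u : Fin M) (z : Tr M i) (v : Fin M)
    (hH : pe Λ x i u z v ⊆ H) : Reach H (Λ.node x u) (Λ.node (x + 2 ^ i) v) := by
  have : ∀ j, j ≤ 2 ^ i → Reach H (Λ.node x u) (Λ.node (x + j) (pth i u z v j)) := by
    intro j
    induction j with
    | zero =>
      intro _
      rw [pth_zero, add_zero]
      exact Relation.ReflTransGen.refl
    | succ j ih =>
      intro hj
      exact Relation.ReflTransGen.tail (ih (by omega)) (hH ⟨j, by omega, rfl⟩)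
  have h := this (2 ^ i) le_rfl
  rwa [pth_last] at h

open Classical in
/-- The inner vertices of a path. -/
noncomputable def inner (Λ : Lay V M ℓ s t) : ℕ → (m : ℕ) → Tr M m → Finset V
  | _, 0, _ => ∅
  | x, m + 1, z => insert (Λ.node (x + 2 ^ m) z.2.1)
      (inner Λ x m z.1 ∪ inner Λ (x + 2 ^ m) m z.2.2)

theorem card_inner : ∀ (m x : ℕ) (z : Tr M m), #(inner Λ x m z) + 1 ≤ 2 ^ m
  | 0, x, z => by simp [inner]
  | m + 1, x, z => by
    classical
    rw [inner]
    have h1 := card_inner m x z.1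
    have h2 := card_inner m (x + 2 ^ m) z.2.2
    have h3 := card_insert_le (Λ.node (x + 2 ^ m) z.2.1)
      (inner Λ x m z.1 ∪ inner Λ (x + 2 ^ m) m z.2.2)
    have h4 := card_union_le (inner Λ x m z.1) (inner Λ (x + 2 ^ m) m z.2.2)
    have h5 : 2 ^ (m + 1) = 2 ^ m + 2 ^ m := by ring
    have h6 : #(insert (Λ.node (x + 2 ^ m) z.2.1)
      (inner Λ x m z.1 ∪ inner Λ (x + 2 ^ m) m z.2.2)) ≤ #(inner Λ x m z.1) +
        #(inner Λ (x + 2 ^ m) m z.2.2) + 1 := by
      refine h3.trans ?_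
      omega
    refine le_trans (Nat.add_le_add_right (le_trans (le_of_eq ?_) h6) 1) (by omega)
    congr!

theorem mem_inner : ∀ (m x : ℕ) (u : Fin M) (z : Tr M m) (v : Fin M) (j : ℕ), 0 < j → j < 2 ^ m →
    Λ.node (x + j) (pth m u z v j) ∈ inner Λ x m z
  | 0, x, u, z, v, j, h1, h2 => by
    rw [pow_zero] at h2
    omega
  | m + 1, x, u, z, v, j, h1, h2 => by
    classical
    have h5 : 2 ^ (m + 1) = 2 ^ m + 2 ^ m := by ring
    rw [inner, mem_insert, mem_union]
    rcases lt_trichotomy j (2 ^ m) with h | h | h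
    · right; left
      rw [pth_left _ _ _ _ h.le]
      exact mem_inner m x _ _ _ j h1 h
    · left
      subst h
      rw [pth_left _ _ _ _ le_rfl, pth_last]
    · right; right
      obtain ⟨j', rfl⟩ := Nat.exists_eq_add_of_le h.le
      rw [pth_right, ← add_assoc]
      exact mem_inner m _ _ _ _ j' (by omega) (by omega)

theorem exists_of_mem_inner : ∀ (m x : ℕ) (u : Fin M) (z : Tr M m) (v : Fin M) (o : V),
    o ∈ inner Λ x m z → ∃ j, 0 < j ∧ j < 2 ^ m ∧ o = Λ.node (x + j) (pth m u z v j)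
  | 0, x, u, z, v, o, h => by simp [inner] at h
  | m + 1, x, u, z, v, o, h => by
    classical
    have h5 : 2 ^ (m + 1) = 2 ^ m + 2 ^ m := by ring
    have h6 : 0 < 2 ^ m := by positivity
    rw [inner, mem_insert, mem_union] at h
    rcases h with h | h | h
    · exact ⟨2 ^ m, h6, by omega, by rw [pth_left _ _ _ _ le_rfl, pth_last]; exact h⟩
    · obtain ⟨j, h1, h2, h3⟩ := exists_of_mem_inner m x u z.1 z.2.1 o h
      exact ⟨j, h1, by omega, by rw [pth_left _ _ _ _ h2.le]; exact h3⟩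
    · obtain ⟨j, h1, h2, h3⟩ := exists_of_mem_inner m _ z.2.1 z.2.2 v o h
      exact ⟨2 ^ m + j, by omega, by omega, by rw [pth_right, ← add_assoc]; exact h3⟩

theorem node_mem_of {A : Finset V} {x i : ℕ} {u : Fin M} {z : Tr M i} {v : Fin M}
    (hu : Λ.node x u ∈ A) (hv : Λ.node (x + 2 ^ i) v ∈ A) (hz : inner Λ x i z ⊆ A) {j : ℕ}
    (hj : j ≤ 2 ^ i) : Λ.node (x + j) (pth i u z v j) ∈ A := by
  rcases Nat.eq_zero_or_pos j with rfl | h0
  · rw [pth_zero, add_zero]
    exact hu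
  · rcases hj.eq_or_lt with rfl | h
    · rw [pth_last]
      exact hv
    · exact hz (mem_inner Λ i x u z v j h0 h)

theorem pe_sub_left {A B : Finset V} {x i : ℕ} {u : Fin M} {z : Tr M i} {v : Fin M}
    (hl : x + 2 ^ i ≤ ℓ) (hu : Λ.node x u ∈ A) (hv : Λ.node (x + 2 ^ i) v ∈ A)
    (hz : inner Λ x i z ⊆ A) : pe Λ x i u z v ⊆ gr Λ A B := by
  rintro e ⟨j, hj, rfl⟩
  refine ⟨?_, Or.inl ⟨node_mem_of Λ hu hv hz hj.le, node_mem_of Λ hu hv hz hj⟩⟩
  rw [Λ.hL _ (by omega), Λ.hL _ (by omega)]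

theorem pe_sub_right {A B : Finset V} {x i : ℕ} {u : Fin M} {z : Tr M i} {v : Fin M}
    (hl : x + 2 ^ i ≤ ℓ) (hu : Λ.node x u ∈ B) (hv : Λ.node (x + 2 ^ i) v ∈ B)
    (hz : inner Λ x i z ⊆ B) : pe Λ x i u z v ⊆ gr Λ A B := by
  rintro e ⟨j, hj, rfl⟩
  refine ⟨?_, Or.inr ⟨node_mem_of Λ hu hv hz hj.le, node_mem_of Λ hu hv hz hj⟩⟩
  rw [Λ.hL _ (by omega), Λ.hL _ (by omega)]

open Classical in
theorem card_mem_inner (x m : ℕ) (hl : x + 2 ^ m ≤ ℓ) (o : V) :
    #{z : Tr M m | o ∈ inner Λ x m z} * M ≤ nT M m := by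
  by_cases hne : ({z : Tr M m | o ∈ inner Λ x m z} : Finset (Tr M m)).Nonempty
  · obtain ⟨z0, hz0⟩ := hne
    rcases Nat.eq_zero_or_pos M with rfl | hM
    · simp
    have a0 : Fin M := ⟨0, hM⟩
    simp only [mem_filter, mem_univ, true_and] at hz0
    obtain ⟨j, h1, h2, h3⟩ := exists_of_mem_inner Λ m x a0 z0 a0 o hz0
    refine le_trans (Nat.mul_le_mul_right _ (card_le_card ?_))
      (card_pth m a0 a0 (pth m a0 z0 a0 j) j h1 h2)
    intro z hz
    simp only [mem_filter, mem_univ, true_and] at hz ⊢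
    obtain ⟨j', h1', h2', h3'⟩ := exists_of_mem_inner Λ m x a0 z a0 o hz
    have h4 : j' = j := by
      have h5 := Λ.hL (x + j) (by omega) (pth m a0 z0 a0 j)
      have h6 := Λ.hL (x + j') (by omega) (pth m a0 z a0 j')
      rw [← h3] at h5
      rw [← h3'] at h6
      omega
    subst h4
    exact Λ.inj _ (by omega) (by omega) (h3'.symm.trans h3)
  · rw [not_nonempty_iff_eq_empty] at hne
    rw [hne]
    simp

open Classical in
/-- A bundle: a vertex in layer `c` and the inner vertices of `K` paths starting in layer `x`. -/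
noncomputable def bun (Λ : Lay V M ℓ s t) {K : ℕ} (c x m : ℕ) (Z : Fin M × (Fin K → Tr M m)) :
    Finset V :=
  insert (Λ.node c Z.1) (univ.biUnion (fun k => inner Λ x m (Z.2 k)))

variable {K : ℕ}

theorem node_mem_bun (c x m : ℕ) (Z : Fin M × (Fin K → Tr M m)) : Λ.node c Z.1 ∈ bun Λ c x m Z := by
  classical
  rw [bun]
  exact mem_insert_self _ _

theorem inner_sub_bun (c x m : ℕ) (Z : Fin M × (Fin K → Tr M m)) (k : Fin K) :
    inner Λ x m (Z.2 k) ⊆ bun Λ c x m Z := by
  classical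
  intro o ho
  rw [bun, mem_insert, mem_biUnion]
  exact Or.inr ⟨k, mem_univ _, ho⟩

theorem card_bun (hK : 0 < K) (c x m : ℕ) (Z : Fin M × (Fin K → Tr M m)) :
    #(bun Λ c x m Z) ≤ K * 2 ^ m := by
  classical
  have h1 : #(bun Λ c x m Z) ≤ #(univ.biUnion (fun k => inner Λ x m (Z.2 k))) + 1 := by
    rw [bun]
    exact card_insert_le _ _
  have h2 : #(univ.biUnion (fun k => inner Λ x m (Z.2 k))) ≤ ∑ k : Fin K, #(inner Λ x m (Z.2 k)) := by
    exact card_biUnion_le
  have h3 : ∑ k : Fin K, #(inner Λ x m (Z.2 k)) + K ≤ K * 2 ^ m := by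
    calc ∑ k : Fin K, #(inner Λ x m (Z.2 k)) + K = ∑ k : Fin K, (#(inner Λ x m (Z.2 k)) + 1) := by
          rw [Finset.sum_add_distrib]
          simp
      _ ≤ ∑ _k : Fin K, 2 ^ m := Finset.sum_le_sum (fun k _ => card_inner Λ m x (Z.2 k))
      _ = K * 2 ^ m := by simp
  omega

/-- The layers of the vertices of a bundle. -/
theorem layer_bun {c x m : ℕ} (hl : x + 2 ^ m ≤ ℓ) (hc0 : 0 < c) (hc : c < ℓ)
    (Z : Fin M × (Fin K → Tr M m)) {o : V} (ho : o ∈ bun Λ c x m Z) :
    ∃ j a, 0 < j ∧ j < ℓ ∧ o = Λ.node j a := by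
  classical
  rw [bun, mem_insert, mem_biUnion] at ho
  rcases ho with ho | ⟨k, -, ho⟩
  · exact ⟨c, Z.1, hc0, hc, ho⟩
  · obtain ⟨j, h1, h2, h3⟩ := exists_of_mem_inner Λ m x Z.1 (Z.2 k) Z.1 o ho
    exact ⟨x + j, _, by omega, by omega, h3⟩

open Classical in
theorem card_coord {X : Type*} [Fintype X] (k : Fin K) (D : Finset X) :
    #{f : Fin K → X | f k ∈ D} * Fintype.card X = #D * Fintype.card X ^ K := by
  have h1 : ({f : Fin K → X | f k ∈ D} : Finset (Fin K → X)) =
      Fintype.piFinset (fun i => if i = k then D else univ) := by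
    ext f
    simp only [mem_filter, mem_univ, true_and, Fintype.mem_piFinset]
    constructor
    · intro h i
      split_ifs with hi
      · rwa [hi]
      · exact mem_univ _
    · intro h
      have := h k
      rwa [if_pos rfl] at this
  rw [h1, Fintype.card_piFinset]
  have h2 : ∏ i : Fin K, #(if i = k then D else (univ : Finset X)) =
      #D * Fintype.card X ^ (K - 1) := by
    rw [← Finset.mul_prod_erase univ _ (mem_univ k), if_pos rfl]
    congr 1
    rw [Finset.prod_congr rfl (g := fun _ => Fintype.card X), prod_const, card_erase_of_mem (mem_univ _),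
      card_univ, Fintype.card_fin]
    intro i hi
    rw [if_neg (mem_erase.1 hi).1, card_univ]
  rw [h2, mul_assoc, ← pow_succ]
  have : 0 < K := k.pos
  rw [Nat.sub_add_cancel this]

open Classical in
theorem card_mem_bun {c x m : ℕ} (hl : x + 2 ^ m ≤ ℓ) (hc0 : 0 < c) (hc : c < ℓ) (o : V) :
    #{Z : Fin M × (Fin K → Tr M m) | o ∈ bun Λ c x m Z} * M ≤
      (K + 1) * Fintype.card (Fin M × (Fin K → Tr M m)) := by
  have hcard : Fintype.card (Fin M × (Fin K → Tr M m)) = M * nT M m ^ K := by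
    rw [Fintype.card_prod, Fintype.card_fun, Fintype.card_fin, Fintype.card_fin]
    rfl
  have h1 : ({Z : Fin M × (Fin K → Tr M m) | o ∈ bun Λ c x m Z} : Finset _) ⊆
      (({a : Fin M | Λ.node c a = o} : Finset (Fin M)) ×ˢ (univ : Finset (Fin K → Tr M m))) ∪
        (univ : Finset (Fin K)).biUnion (fun k => (univ : Finset (Fin M)) ×ˢ
          ({f : Fin K → Tr M m | f k ∈ ({z : Tr M m | o ∈ inner Λ x m z} : Finset (Tr M m))} :
            Finset (Fin K → Tr M m))) := by
    intro Z hZ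
    simp only [mem_filter, mem_univ, true_and, bun, mem_insert, mem_biUnion] at hZ
    rw [mem_union]
    rcases hZ with hZ | ⟨k, hk⟩
    · left
      simp [hZ]
    · right
      rw [mem_biUnion]
      exact ⟨k, mem_univ _, by simp [hk]⟩
  have h2 := (card_le_card h1).trans (card_union_le _ _)
  have h3 : #(({a : Fin M | Λ.node c a = o} : Finset (Fin M)) ×ˢ
      (univ : Finset (Fin K → Tr M m))) ≤ nT M m ^ K := by
    rw [card_product, card_univ, Fintype.card_fun, Fintype.card_fin]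
    have h4 : #({a : Fin M | Λ.node c a = o} : Finset (Fin M)) ≤ 1 := by
      rw [card_le_one]
      intro a ha b hb
      simp only [mem_filter, mem_univ, true_and] at ha hb
      exact Λ.inj c hc0 hc (ha.trans hb.symm)
    calc _ ≤ 1 * nT M m ^ K := Nat.mul_le_mul_right _ h4
      _ = _ := one_mul _
  have h4 : #((univ : Finset (Fin K)).biUnion (fun k => (univ : Finset (Fin M)) ×ˢ
          ({f : Fin K → Tr M m | f k ∈ ({z : Tr M m | o ∈ inner Λ x m z} : Finset (Tr M m))} :
            Finset (Fin K → Tr M m)))) ≤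
      ∑ k : Fin K, M * #{f : Fin K → Tr M m | f k ∈ ({z : Tr M m | o ∈ inner Λ x m z} :
        Finset (Tr M m))} := by
    refine card_biUnion_le.trans (Finset.sum_le_sum (fun k _ => ?_))
    rw [card_product, card_univ, Fintype.card_fin]
  have h5 : ∀ k : Fin K, #{f : Fin K → Tr M m | f k ∈ ({z : Tr M m | o ∈ inner Λ x m z} :
        Finset (Tr M m))} * M ≤ nT M m ^ K := by
    intro k
    rcases Nat.eq_zero_or_pos M with rfl | hM
    · simp
    have h6 := card_coord k ({z : Tr M m | o ∈ inner Λ x m z} : Finset (Tr M m))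
    have h7 := card_mem_inner Λ x m hl o
    have h8 : 0 < Fintype.card (Tr M m) := nT_pos hM m
    have h9 : (#{f : Fin K → Tr M m | f k ∈ ({z : Tr M m | o ∈ inner Λ x m z} :
        Finset (Tr M m))} * M) * Fintype.card (Tr M m) ≤ nT M m ^ K * Fintype.card (Tr M m) := by
      calc (#{f : Fin K → Tr M m | f k ∈ ({z : Tr M m | o ∈ inner Λ x m z} :
        Finset (Tr M m))} * M) * Fintype.card (Tr M m)
          = (#{f : Fin K → Tr M m | f k ∈ ({z : Tr M m | o ∈ inner Λ x m z} :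
        Finset (Tr M m))} * Fintype.card (Tr M m)) * M := by ring
        _ = (#{z : Tr M m | o ∈ inner Λ x m z} * M) * nT M m ^ K := by
            rw [h6]
            change _ * nT M m ^ K * M = _
            ring
        _ ≤ nT M m * nT M m ^ K := Nat.mul_le_mul_right _ h7
        _ = _ := mul_comm _ _
    exact Nat.le_of_mul_le_mul_right h9 h8
  calc #{Z : Fin M × (Fin K → Tr M m) | o ∈ bun Λ c x m Z} * M
      ≤ (nT M m ^ K + ∑ k : Fin K, M * #{f : Fin K → Tr M m | f k ∈
        ({z : Tr M m | o ∈ inner Λ x m z} : Finset (Tr M m))}) * M :=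
        Nat.mul_le_mul_right _ (h2.trans (Nat.add_le_add h3 h4))
    _ = nT M m ^ K * M + ∑ k : Fin K, M * (#{f : Fin K → Tr M m | f k ∈
        ({z : Tr M m | o ∈ inner Λ x m z} : Finset (Tr M m))} * M) := by
        rw [add_mul, Finset.sum_mul]
        congr 1
        apply Finset.sum_congr rfl
        intro k _
        ring
    _ ≤ nT M m ^ K * M + ∑ _k : Fin K, M * nT M m ^ K :=
        Nat.add_le_add_left (Finset.sum_le_sum (fun k _ => Nat.mul_le_mul_left _ (h5 k))) _
    _ = (K + 1) * Fintype.card (Fin M × (Fin K → Tr M m)) := by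
        rw [hcard]
        simp
        ring

end Pool.Agent.L5helper51.SZ
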