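import Pool.Agent.L5helper51.SZ.Param

/-!
# The lower bound
-/

namespace Pool.Agent.L5helper51.SZ

open Pool.Agent.L5helper51.SX (Lay Tr nT nT_zero nT_succ nT_pos pth pth_zero pth_last pth_left
  pth_right card_pth exists_lay)

open Finset

variable {V R : Type*} {M ℓ : ℕ} {s t : V}

theorem pe_layer (Λ : Lay V M ℓ s t) {x i : ℕ} (hl : x + 2 ^ i ≤ ℓ) (u : Fin M) (z : Tr M i)
    (v : Fin M) : ∀ e ∈ pe Λ x i u z v, Λ.L e.1 < Λ.L e.2 := by
  rintro e ⟨j, hj, rfl⟩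
  simp only
  rw [Λ.hL _ (by omega), Λ.hL _ (by omega)]
  omega

/-- The core of the lower bound. -/
theorem core [Fintype V] [Fintype R] (hst : s ≠ t) {Ω : Type*} [Fintype Ω] [Nonempty Ω]
    {P : Ω → List (Step V R)} {out : R} {q m : ℕ} (hm : 1 ≤ m)
    (hV : 2 ^ (19 * m + 55) * Fintype.card R ≤ Fintype.card V) (hq : q < 16 * 2 ^ m)
    (hlen : ∀ ω, (P ω).length ≤ 2 ^ (m ^ 2))
    (hs : ∀ M ℓ, ∀ Λ : Lay V M ℓ s t, ∀ ω, ∀ A B : Finset V, s ∈ A → t ∈ B → Disjoint A B →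
      out ∉ exec (gr Λ A B) (P ω) ∅)
    (hc : ∀ M i, ∀ Λ : Lay V M (2 ^ i) s t, ∀ u v : Fin M, ∀ z : Tr M i,
      Nat.card Ω ≤ q * Nat.card {ω // out ∈ exec (pe Λ 0 i u z v) (P ω) ∅}) : False := by
  classical
  have hr : 0 < Fintype.card R := Fintype.card_pos_iff.2 ⟨out⟩
  obtain ⟨ρ, h1, h2⟩ : ∃ ρ, Fintype.card R ≤ 2 ^ ρ ∧ 2 ^ ρ ≤ 2 * Fintype.card R := by
    rcases Nat.lt_or_ge 1 (Fintype.card R) with h | h
    · refine ⟨Nat.clog 2 (Fintype.card R), Nat.le_pow_clog (by norm_num) _, ?_⟩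
      have h3 := Nat.pow_pred_clog_lt_self (b := 2) (by norm_num) h
      have h4 : 0 < Nat.clog 2 (Fintype.card R) := Nat.clog_pos (by norm_num) h
      obtain ⟨c, hc⟩ : ∃ c, Nat.clog 2 (Fintype.card R) = c + 1 := ⟨_, (Nat.succ_pred h4.ne').symm⟩
      rw [hc] at h3 ⊢
      rw [Nat.pred_succ] at h3
      rw [pow_succ]
      omega
    · exact ⟨0, by simpa using h, by omega⟩
  have hMV : 2 ^ (18 * m + 53 + ρ) * (2 ^ (m + 1) - 1) + 2 ≤ Fintype.card V := by
    have h3 : 2 ^ (18 * m + 53 + ρ) * (2 ^ (m + 1) - 1) + 2 ^ (18 * m + 53 + ρ) =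
        2 ^ (18 * m + 53 + ρ) * 2 ^ (m + 1) := by
      have h4 : 1 ≤ 2 ^ (m + 1) := Nat.one_le_two_pow
      obtain ⟨c, hc⟩ := Nat.exists_eq_add_of_le h4
      rw [hc, Nat.add_sub_cancel_left]
      ring
    have h4 : 2 ^ (18 * m + 53 + ρ) * 2 ^ (m + 1) ≤ Fintype.card V := by
      calc 2 ^ (18 * m + 53 + ρ) * 2 ^ (m + 1) = 2 ^ (19 * m + 54) * 2 ^ ρ := by ring
        _ ≤ 2 ^ (19 * m + 54) * (2 * Fintype.card R) := Nat.mul_le_mul_left _ h2
        _ = 2 ^ (19 * m + 55) * Fintype.card R := by ring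
        _ ≤ _ := hV
    have h5 : 2 ^ 1 ≤ 2 ^ (18 * m + 53 + ρ) := Nat.pow_le_pow_right (by norm_num) (by omega)
    omega
  obtain ⟨Λ⟩ := exists_lay hst (M := 2 ^ (18 * m + 53 + ρ)) hMV
  have u : Fin (2 ^ (18 * m + 53 + ρ)) := ⟨0, by positivity⟩
  set Acc : Ω → Finset (Tr (2 ^ (18 * m + 53 + ρ)) (m + 1)) := fun ω =>
    {z | out ∈ exec (pe Λ 0 (m + 1) u z u) (P ω) ∅} with hAcc
  have h3 : ∀ ω, #(Acc ω) * (16 * 2 ^ m) ≤ nT (2 ^ (18 * m + 53 + ρ)) (m + 1) := fun ω =>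
    few_paths hm h1 Λ hst (hlen ω) (hs _ _ Λ ω) u u (Acc ω) (fun z hz => (mem_filter.1 hz).2)
  have h4 : ∀ z : Tr (2 ^ (18 * m + 53 + ρ)) (m + 1), Fintype.card Ω ≤
      q * #{ω | z ∈ Acc ω} := by
    intro z
    have h5 := hc _ _ Λ u u z
    rw [Nat.card_eq_fintype_card, Nat.card_eq_fintype_card, Fintype.card_subtype] at h5
    refine h5.trans (Nat.mul_le_mul_left _ (card_le_card ?_))
    intro ω hω
    simpa [hAcc] using hω
  have h5 : ∑ ω : Ω, #(Acc ω) = ∑ z : Tr (2 ^ (18 * m + 53 + ρ)) (m + 1), #{ω | z ∈ Acc ω} := by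
    simp only [card_filter]
    have h6 : ∀ ω, #(Acc ω) = ∑ z, if z ∈ Acc ω then 1 else 0 := by
      intro ω
      rw [← card_filter]
      congr 1
      ext z
      simp
    simp only [h6]
    rw [Finset.sum_comm]
  have h6 : nT (2 ^ (18 * m + 53 + ρ)) (m + 1) * Fintype.card Ω ≤ q * ∑ ω : Ω, #(Acc ω) := by
    rw [h5, Finset.mul_sum]
    calc nT (2 ^ (18 * m + 53 + ρ)) (m + 1) * Fintype.card Ω =
        ∑ _z : Tr (2 ^ (18 * m + 53 + ρ)) (m + 1), Fintype.card Ω := by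
          rw [sum_const, card_univ, smul_eq_mul]
          rfl
      _ ≤ _ := Finset.sum_le_sum (fun z _ => h4 z)
  have h7 : (∑ ω : Ω, #(Acc ω)) * (16 * 2 ^ m) ≤
      Fintype.card Ω * nT (2 ^ (18 * m + 53 + ρ)) (m + 1) := by
    rw [Finset.sum_mul]
    calc ∑ ω : Ω, #(Acc ω) * (16 * 2 ^ m) ≤ ∑ _ω : Ω, nT (2 ^ (18 * m + 53 + ρ)) (m + 1) :=
          Finset.sum_le_sum (fun ω _ => h3 ω)
      _ = _ := by rw [sum_const, card_univ, smul_eq_mul]
  have hn : 0 < nT (2 ^ (18 * m + 53 + ρ)) (m + 1) := nT_pos (by positivity) _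
  have hΩ : 0 < Fintype.card Ω := Fintype.card_pos
  have h8 : (nT (2 ^ (18 * m + 53 + ρ)) (m + 1) * Fintype.card Ω) * (16 * 2 ^ m) ≤
      (nT (2 ^ (18 * m + 53 + ρ)) (m + 1) * Fintype.card Ω) * q := by
    calc (nT (2 ^ (18 * m + 53 + ρ)) (m + 1) * Fintype.card Ω) * (16 * 2 ^ m)
        ≤ (q * ∑ ω : Ω, #(Acc ω)) * (16 * 2 ^ m) := Nat.mul_le_mul_right _ h6
      _ = q * ((∑ ω : Ω, #(Acc ω)) * (16 * 2 ^ m)) := by ring
      _ ≤ q * (Fintype.card Ω * nT (2 ^ (18 * m + 53 + ρ)) (m + 1)) := Nat.mul_le_mul_left _ h7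
      _ = _ := by ring
  have h9 := Nat.le_of_mul_le_mul_left h8 (Nat.mul_pos hn hΩ)
  omega

/-- The lower bound for acyclic graphs. -/
theorem core_acyclic [Fintype V] [Fintype R] (hst : s ≠ t) {Ω : Type*} [Fintype Ω] [Nonempty Ω]
    {P : Ω → List (Step V R)} {out : R} {q m : ℕ} (hm : 1 ≤ m)
    (hV : 2 ^ (19 * m + 55) * Fintype.card R ≤ Fintype.card V) (hq : q < 16 * 2 ^ m)
    (hlen : ∀ ω, (P ω).length ≤ 2 ^ (m ^ 2))
    (hs : ∀ ω, ∀ H : Set (V × V), Acyclic H → out ∈ exec H (P ω) ∅ → Reach H s t)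
    (hc : ∀ H : Set (V × V), Acyclic H → Reach H s t →
      Nat.card Ω ≤ q * Nat.card {ω // out ∈ exec H (P ω) ∅}) : False := by
  refine core (out := out) hst hm hV hq hlen ?_ ?_
  · intro M ℓ Λ ω A B hA hB hd hout
    exact not_reach Λ hA hB hd (hs ω _ ⟨Λ.L, fun e he => by rw [he.1]; omega⟩ hout)
  · intro M i Λ u v z
    refine hc _ ⟨Λ.L, pe_layer Λ (by omega) u z v⟩ ?_
    have h := reach_pe Λ 0 i u z v (H := pe Λ 0 i u z v) subset_rfl
    rwa [zero_add, Λ.h0, Λ.hl] at h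

/-- the edges in both directions -/
def both (H : Set (V × V)) : Set (V × V) := {e | e ∈ H ∨ (e.2, e.1) ∈ H}

theorem both_undirected (H : Set (V × V)) : Undirected (both H) := fun _ _ h => h.symm

/-- Replace the graph by its symmetric closure. -/
def symStep (S : Step V R) : Step V R where
  x := S.x
  f := fun σ E => S.f σ (both E)
  mono := fun _ _ _ _ h1 h2 => S.mono _ _ _ _ h1 (fun _ he => he.imp (fun h => h2 h) (fun h => h2 h))

theorem exec_symStep (H : Set (V × V)) : ∀ (P : List (Step V R)) (σ : Set R),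
    exec H (P.map symStep) σ = exec (both H) P σ
  | [], _ => rfl
  | S :: P, σ => by
    rw [List.map_cons, exec_cons, exec_cons, exec_symStep H P]
    congr 1
    change S.f σ _ = S.f σ _
    congr 1
    ext e
    simp only [both, symStep, Set.mem_ofPred_eq]
    tauto

theorem not_reach_both (Λ : Lay V M ℓ s t) {A B : Finset V} (hs : s ∈ A) (ht : t ∈ B)
    (hd : Disjoint A B) : ¬ Reach (both (gr Λ A B)) s t := by
  intro h
  have : ∀ x, Reach (both (gr Λ A B)) s x → x ∈ A := by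
    intro x hx
    unfold Reach at hx
    induction hx with
    | refl => exact hs
    | tail _ he ih =>
      rcases he with he | he
      · rcases he.2 with h1 | h1
        · exact h1.2
        · exact absurd h1.1 (Finset.disjoint_left.1 hd ih)
      · rcases he.2 with h1 | h1
        · exact h1.1
        · exact absurd h1.2 (Finset.disjoint_left.1 hd ih)
  exact Finset.disjoint_left.1 hd (this t h) ht

/-- The lower bound for undirected graphs. -/
theorem core_symmetric [Fintype V] [Fintype R] (hst : s ≠ t) {Ω : Type*} [Fintype Ω] [Nonempty Ω]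
    {P : Ω → List (Step V R)} {out : R} {q m : ℕ} (hm : 1 ≤ m)
    (hV : 2 ^ (19 * m + 55) * Fintype.card R ≤ Fintype.card V) (hq : q < 16 * 2 ^ m)
    (hlen : ∀ ω, (P ω).length ≤ 2 ^ (m ^ 2))
    (hs : ∀ ω, ∀ H : Set (V × V), Undirected H → out ∈ exec H (P ω) ∅ → Reach H s t)
    (hc : ∀ H : Set (V × V), Undirected H → Reach H s t →
      Nat.card Ω ≤ q * Nat.card {ω // out ∈ exec H (P ω) ∅}) : False := by
  refine core hst (P := fun ω => (P ω).map symStep) (out := out) hm hV hq (by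
    intro ω
    rw [List.length_map]
    exact hlen ω) ?_ ?_
  · intro M ℓ Λ ω A B hA hB hd hout
    rw [exec_symStep] at hout
    exact not_reach_both Λ hA hB hd (hs ω _ (both_undirected _) hout)
  · intro M i Λ u v z
    simp only [exec_symStep]
    refine hc _ (both_undirected _) ?_
    have h := reach_pe Λ 0 i u z v (H := both (pe Λ 0 i u z v)) (fun e he => Or.inl he)
    rwa [zero_add, Λ.h0, Λ.hl] at h

/-- From the parameter `m` to logarithms. -/
theorem log_form {N r q T : ℕ} (hr : 0 < r) (hN : 2 ^ 1480 * r ≤ N) (hq : q ^ 20 * r ≤ N)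
    (h : ∀ m : ℕ, 1 ≤ m → 2 ^ (19 * m + 55) * r ≤ N → q < 16 * 2 ^ m → T ≤ 2 ^ (m ^ 2) → False) :
    Real.logb 2 ((N : ℝ) / r) ^ 2 / 400 ≤ Real.logb 2 T := by
  have hrR : (0 : ℝ) < r := by exact_mod_cast hr
  set x : ℝ := Real.logb 2 ((N : ℝ) / r) with hx
  have h1 : (2 : ℝ) ^ (1480 : ℕ) ≤ (N : ℝ) / r := by
    rw [le_div_iff₀ hrR]
    exact_mod_cast hN
  have hpos : (0 : ℝ) < (N : ℝ) / r := lt_of_lt_of_le (by positivity) h1
  have h2 : (1480 : ℝ) ≤ x := by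
    rw [hx, Real.le_logb_iff_rpow_le (by norm_num) hpos]
    have : (2 : ℝ) ^ (1480 : ℝ) = (2 : ℝ) ^ (1480 : ℕ) := by
      rw [← Real.rpow_natCast]
      norm_num
    rw [this]
    exact h1
  have hx2 : (2 : ℝ) ^ x = (N : ℝ) / r := Real.rpow_logb (by norm_num) (by norm_num) hpos
  obtain ⟨m, hm⟩ : ∃ m, m = ⌊(x - 55) / 19⌋₊ := ⟨_, rfl⟩
  have h3 : (m : ℝ) ≤ (x - 55) / 19 := by
    rw [hm]
    exact Nat.floor_le (by linarith)
  have h4 : (x - 55) / 19 < m + 1 := by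
    rw [hm]
    exact Nat.lt_floor_add_one _
  have h5 : x / 20 ≤ m := by
    have : (x - 55) / 19 - 1 ≤ m := by linarith
    linarith
  have hm74 : (74 : ℝ) ≤ m := by linarith
  have hm1 : 1 ≤ m := by
    have : (1 : ℝ) ≤ m := by linarith
    exact_mod_cast this
  have h6 : 2 ^ (19 * m + 55) * r ≤ N := by
    have h7 : (2 : ℝ) ^ (19 * m + 55 : ℕ) ≤ (N : ℝ) / r := by
      rw [← hx2, ← Real.rpow_natCast]
      apply Real.rpow_le_rpow_of_exponent_le (by norm_num)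
      push_cast
      linarith
    rw [le_div_iff₀ hrR] at h7
    exact_mod_cast h7
  have h7 : q < 16 * 2 ^ m := by
    have h8 : (q : ℝ) ^ 20 ≤ (2 : ℝ) ^ x := by
      rw [hx2, le_div_iff₀ hrR]
      exact_mod_cast hq
    have h9 : (q : ℝ) ^ 20 ≤ ((2 : ℝ) ^ m) ^ 20 := by
      refine h8.trans ?_
      rw [← pow_mul, ← Real.rpow_natCast]
      apply Real.rpow_le_rpow_of_exponent_le (by norm_num)
      push_cast
      linarith
    have h10 : (q : ℝ) ≤ (2 : ℝ) ^ m := le_of_pow_le_pow_left₀ (by norm_num) (by positivity) h9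
    have h11 : q ≤ 2 ^ m := by exact_mod_cast h10
    have : 0 < 2 ^ m := by positivity
    omega
  have h8 : 2 ^ (m ^ 2) < T := by
    by_contra hcon
    exact h m hm1 h6 h7 (by omega)
  have h9 : (m : ℝ) ^ 2 ≤ Real.logb 2 T := by
    rw [Real.le_logb_iff_rpow_le (by norm_num) (by
      have : 0 < T := lt_of_le_of_lt (Nat.zero_le _) h8
      exact_mod_cast this)]
    have h10 : (2 : ℝ) ^ ((m : ℝ) ^ 2) = (2 : ℝ) ^ (m ^ 2 : ℕ) := by
      rw [← Real.rpow_natCast 2 (m ^ 2), Nat.cast_pow]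
    rw [h10]
    exact_mod_cast h8.le
  have h10 : (x / 20) ^ 2 ≤ (m : ℝ) ^ 2 := pow_le_pow_left₀ (by linarith) h5 2
  calc x ^ 2 / 400 = (x / 20) ^ 2 := by ring
    _ ≤ (m : ℝ) ^ 2 := h10
    _ ≤ _ := h9

/-- Programs of polynomial length. -/
theorem registers_form {N r q T : ℕ} (hr : 0 < r) (hq : q ≤ 2 ^ 74) {c : ℝ} (hc : 0 ≤ c)
    (hT : (T : ℝ) ≤ (N : ℝ) ^ c)
    (h : 2 ^ 1480 * r ≤ N → q ^ 20 * r ≤ N →
      Real.logb 2 ((N : ℝ) / r) ^ 2 / 400 ≤ Real.logb 2 T) :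
    (N : ℝ) / 2 ^ (max 1480 (20 * √(c * Real.logb 2 N))) ≤ r := by
  have hrR : (0 : ℝ) < r := by exact_mod_cast hr
  have hmax : (0 : ℝ) < 2 ^ (max 1480 (20 * √(c * Real.logb 2 N))) :=
    Real.rpow_pos_of_pos (by norm_num) _
  rw [div_le_iff₀ hmax]
  by_cases hN : 2 ^ 1480 * r ≤ N
  · have hq' : q ^ 20 * r ≤ N := by
      refine le_trans (Nat.mul_le_mul_right _ ?_) hN
      calc q ^ 20 ≤ (2 ^ 74) ^ 20 := Nat.pow_le_pow_left hq 20
        _ = 2 ^ 1480 := by rw [← pow_mul]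
    have h1 := h hN hq'
    have h2 : (2 : ℝ) ^ (1480 : ℕ) ≤ (N : ℝ) / r := by
      rw [le_div_iff₀ hrR]
      exact_mod_cast hN
    have hpos : (0 : ℝ) < (N : ℝ) / r := lt_of_lt_of_le (by positivity) h2
    have hNpos : (0 : ℝ) < N := by
      have := mul_pos hpos hrR
      rwa [div_mul_cancel₀ _ hrR.ne'] at this
    have hN1 : (1 : ℝ) ≤ N := by
      have : 0 < N := by exact_mod_cast hNpos
      exact_mod_cast this
    have hlogN : 0 ≤ Real.logb 2 N := Real.logb_nonneg (by norm_num) hN1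
    have h3 : Real.logb 2 T ≤ c * Real.logb 2 N := by
      rcases Nat.eq_zero_or_pos T with rfl | hT0
      · simp only [Nat.cast_zero, Real.logb_zero]
        positivity
      · rw [← Real.logb_rpow_eq_mul_logb_of_pos hNpos]
        exact Real.logb_le_logb_of_le (by norm_num) (by exact_mod_cast hT0) hT
    have h4 : (Real.logb 2 ((N : ℝ) / r) / 20) ^ 2 ≤ c * Real.logb 2 N := by
      have : (Real.logb 2 ((N : ℝ) / r) / 20) ^ 2 = Real.logb 2 ((N : ℝ) / r) ^ 2 / 400 := by ring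
      rw [this]
      exact h1.trans h3
    have h5 : Real.logb 2 ((N : ℝ) / r) / 20 ≤ √(c * Real.logb 2 N) := Real.le_sqrt_of_sq_le h4
    have h6 : Real.logb 2 ((N : ℝ) / r) ≤ max 1480 (20 * √(c * Real.logb 2 N)) := by
      refine le_trans ?_ (le_max_right _ _)
      linarith
    have h7 : (N : ℝ) / r ≤ 2 ^ (max 1480 (20 * √(c * Real.logb 2 N))) := by
      rw [← Real.logb_le_iff_le_rpow (by norm_num) hpos]
      exact h6
    rw [div_le_iff₀ hrR] at h7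
    linarith
  · push Not at hN
    have h1 : (N : ℝ) ≤ 2 ^ (1480 : ℕ) * r := by exact_mod_cast hN.le
    have h2 : (2 : ℝ) ^ (1480 : ℕ) ≤ 2 ^ (max 1480 (20 * √(c * Real.logb 2 N))) := by
      rw [← Real.rpow_natCast]
      apply Real.rpow_le_rpow_of_exponent_le (by norm_num)
      refine le_trans (le_of_eq ?_) (le_max_left _ _)
      norm_num
    calc (N : ℝ) ≤ 2 ^ (1480 : ℕ) * r := h1
      _ ≤ 2 ^ (max 1480 (20 * √(c * Real.logb 2 N))) * r := mul_le_mul_of_nonneg_right h2 hrR.le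
      _ = _ := mul_comm _ _

end Pool.Agent.L5helper51.SZ
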