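import Pool.Agent.L5helper51.SZ.Top
import Pool.Agent.L5helper51.SX.Main

/-!
# The parameters
-/

namespace Pool.Agent.L5helper51.SZ

open Pool.Agent.L5helper51.SX (Lay Tr nT nT_zero nT_succ nT_pos pth pth_zero pth_last pth_left
  pth_right card_pth exists_lay)

open Finset

variable {V R : Type*} {M ℓ : ℕ} {s t : V} {Λ : Lay V M ℓ s t}

open Classical in
/-- The list of all types of bundles. -/
noncomputable def types (ℓ k : ℕ) : List (Bool × ℕ × ℕ × ℕ) :=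
  (((univ : Finset Bool) ×ˢ (range ℓ ×ˢ (range ℓ ×ˢ range (k + 1)))).filter (Valid ℓ k)).toList

theorem mem_types {ℓ k : ℕ} {τ : Bool × ℕ × ℕ × ℕ} : τ ∈ types ℓ k ↔ Valid ℓ k τ := by
  classical
  rw [types, mem_toList, mem_filter]
  refine ⟨fun h => h.2, fun h => ⟨?_, h⟩⟩
  obtain ⟨h1, h2, h3, h4⟩ := h
  rw [mem_product, mem_product, mem_product, mem_range, mem_range, mem_range]
  have h5 : 0 < 2 ^ τ.2.2.2 := by positivity
  exact ⟨mem_univ _, h3, by omega, by omega⟩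

theorem length_types (ℓ k : ℕ) : (types ℓ k).length ≤ 2 * (ℓ * (ℓ * (k + 1))) := by
  classical
  rw [types, length_toList]
  refine (card_filter_le _ _).trans (le_of_eq ?_)
  rw [card_product, card_product, card_product, card_range, card_range, card_univ,
    Fintype.card_bool]

/-- A saturated chain exists. -/
theorem Sit.exists [Fintype R] {P : List (Step V R)} {K κ D d g k Q : ℕ}
    (hg : 0 < g) (hM : 32 * g ≤ M) (hK : 128 * g ^ 2 ≤ K) (hD : 256 * g ^ 2 ≤ D)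
    (hF : FF P.length (Fintype.card R) κ ((ℓ + 1) * M) * (2 * D - 1) ^ d < (2 * D) ^ d)
    (hbd : 2 * D * (K + 1) * (Q * ((2 * (ℓ * (ℓ * (k + 1)))) * (d * (K * 2 ^ k)))) ≤ M) :
    ∃ C : ℕ → Finset V × Finset V, Sit Λ P C K κ D g k Q ∧
      ∀ c ≤ Q, Disjoint (C c).1 (C c).2 ∧ Inn Λ (C c) := by
  have hg2 : 0 < g ^ 2 := by positivity
  obtain ⟨C, h0, h1, h2⟩ := chain Λ (P := P) (κ := κ) (k := k) (by omega : 0 < K) (by omega : 0 < D)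
    (by omega : 0 < M) hF (types ℓ k) (fun τ hτ => mem_types.1 hτ) Q (by
      refine le_trans (Nat.mul_le_mul_left _ (Nat.mul_le_mul_left _ ?_)) hbd
      exact Nat.mul_le_mul_right _ (length_types ℓ k))
  refine ⟨C, ⟨h0, fun c hc => (h1 c hc).1, ?_, hg, hM, hK, hD⟩, fun c hc => ⟨(h2 c hc).1, (h2 c hc).2.1⟩⟩
  intro c hc b c' x m hv
  exact (h1 c hc).2 (b, c', x, m) (mem_types.2 hv)

theorem hit_num {D E : ℕ} (hD : 0 < D) :
    2 ^ E * (2 * D - 1) ^ (2 * D * (E + 1)) < (2 * D) ^ (2 * D * (E + 1)) := by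
  have h1 := pow_half (n := 2 * D) (d := 1) (K := 2 * D) (by omega) (by omega) (by omega)
  have h2 : 2 * (2 * D - 1) ^ (2 * D) ≤ (2 * D) ^ (2 * D) := by
    have h3 : (2 : ℝ) * ((2 * D - 1 : ℕ) : ℝ) ^ (2 * D) ≤ ((2 * D : ℕ) : ℝ) ^ (2 * D) := by linarith
    exact_mod_cast h3
  have h3 : 2 ^ (E + 1) * (2 * D - 1) ^ (2 * D * (E + 1)) ≤ (2 * D) ^ (2 * D * (E + 1)) := by
    rw [pow_mul (2 * D - 1), pow_mul (2 * D) (2 * D) (E + 1), ← mul_pow]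
    exact Nat.pow_le_pow_left h2 _
  have h4 : 0 < (2 * D - 1) ^ (2 * D * (E + 1)) := Nat.pow_pos (by omega)
  have h5 : 2 ^ (E + 1) * (2 * D - 1) ^ (2 * D * (E + 1)) =
      2 ^ E * (2 * D - 1) ^ (2 * D * (E + 1)) + 2 ^ E * (2 * D - 1) ^ (2 * D * (E + 1)) := by ring
  have h6 : 0 < 2 ^ E * (2 * D - 1) ^ (2 * D * (E + 1)) := by positivity
  omega

theorem FF_le {n r κ N a n' : ℕ} (hn : n ≤ 2 ^ a) (hN : N + 1 ≤ 2 ^ n') :
    FF n r κ N ≤ 2 ^ (2 * (a + 1) + 2 * r + 2 * (κ * n')) := by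
  have h1 : n + 1 ≤ 2 ^ (a + 1) := by
    have : 2 ^ (a + 1) = 2 ^ a + 2 ^ a := by ring
    have : 0 < 2 ^ a := by positivity
    omega
  have h2 : (N + 1) ^ κ ≤ 2 ^ (κ * n') := by
    rw [mul_comm κ n', pow_mul]
    exact Nat.pow_le_pow_left hN κ
  calc FF n r κ N = (n + 1) * (n + 1) * 2 ^ r * (N + 1) ^ κ * (N + 1) ^ κ * 2 ^ r := rfl
    _ ≤ 2 ^ (a + 1) * 2 ^ (a + 1) * 2 ^ r * 2 ^ (κ * n') * 2 ^ (κ * n') * 2 ^ r := by gcongr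
    _ = _ := by
        rw [← pow_add, ← pow_add, ← pow_add, ← pow_add, ← pow_add]
        congr 1
        ring

theorem lin_le_two_pow (m : ℕ) : m + 1 ≤ 2 ^ m := Nat.lt_two_pow_self

/-- The inequality between the parameters. -/
theorem param {m ρ r : ℕ} (hm : 1 ≤ m) (hr : r ≤ 2 ^ ρ) :
    2 * 2 ^ (2 * m + 8) * (2 ^ (2 * m + 7) + 1) * ((1 + m * 2 ^ m) *
      ((2 * (2 ^ (m + 1) * (2 ^ (m + 1) * (m + 1)))) *
        (2 * 2 ^ (2 * m + 8) * ((2 * (m ^ 2 + 1) + 2 * r + 2 * (2 ^ (3 * m + 9) *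
          (19 * m + 55 + ρ))) + 1) * (2 ^ (2 * m + 7) * 2 ^ m)))) ≤ 2 ^ (18 * m + 53 + ρ) := by
  have hm1 := lin_le_two_pow m
  have hρ1 := lin_le_two_pow ρ
  have h1 : 2 * 2 ^ (2 * m + 8) = 2 ^ (2 * m + 9) := by ring
  have h2 : 2 ^ (2 * m + 7) + 1 ≤ 2 ^ (2 * m + 8) := by
    have h3 : 2 ^ (2 * m + 8) = 2 ^ (2 * m + 7) + 2 ^ (2 * m + 7) := by ring
    have h4 : 0 < 2 ^ (2 * m + 7) := by positivity
    omega
  have h3 : 1 + m * 2 ^ m ≤ 2 ^ (2 * m) := by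
    calc 1 + m * 2 ^ m ≤ 2 ^ m + m * 2 ^ m := Nat.add_le_add_right Nat.one_le_two_pow _
      _ = (m + 1) * 2 ^ m := by ring
      _ ≤ 2 ^ m * 2 ^ m := Nat.mul_le_mul_right _ hm1
      _ = _ := by ring
  have h4 : 2 * (2 ^ (m + 1) * (2 ^ (m + 1) * (m + 1))) ≤ 2 ^ (3 * m + 3) := by
    calc 2 * (2 ^ (m + 1) * (2 ^ (m + 1) * (m + 1))) ≤
        2 * (2 ^ (m + 1) * (2 ^ (m + 1) * 2 ^ m)) := by gcongr
      _ = _ := by ring
  have h5 : 19 * m + 55 + ρ ≤ 2 ^ (m + 6 + ρ) := by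
    have h6 : 19 * m + 55 ≤ 2 ^ (m + 6) := by
      have : 2 ^ (m + 6) = 64 * 2 ^ m := by ring
      omega
    calc 19 * m + 55 + ρ ≤ 2 ^ (m + 6) + ρ := Nat.add_le_add_right h6 _
      _ ≤ 2 ^ (m + 6) + 2 ^ (m + 6) * ρ := by
          have : 0 < 2 ^ (m + 6) := by positivity
          exact Nat.add_le_add_left (Nat.le_mul_of_pos_left _ this) _
      _ = 2 ^ (m + 6) * (ρ + 1) := by ring
      _ ≤ 2 ^ (m + 6) * 2 ^ ρ := Nat.mul_le_mul_left _ hρ1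
      _ = _ := by ring
  have h6 : (2 * (m ^ 2 + 1) + 2 * r + 2 * (2 ^ (3 * m + 9) * (19 * m + 55 + ρ))) + 1 ≤
      2 ^ (4 * m + 17 + ρ) := by
    have e1 : 2 * (2 ^ (3 * m + 9) * (19 * m + 55 + ρ)) ≤ 2 ^ (4 * m + 16 + ρ) := by
      calc 2 * (2 ^ (3 * m + 9) * (19 * m + 55 + ρ)) ≤
          2 * (2 ^ (3 * m + 9) * 2 ^ (m + 6 + ρ)) := by gcongr
        _ = _ := by ring
    have e2 : m ^ 2 ≤ 2 ^ (2 * m) := by
      calc m ^ 2 ≤ (2 ^ m) ^ 2 := Nat.pow_le_pow_left (by omega) 2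
        _ = _ := by rw [← pow_mul, mul_comm]
    have e3 : 2 ^ (4 * m + 16 + ρ) = 2 ^ (2 * m + 16) * (2 ^ (2 * m) * 2 ^ ρ) := by ring
    have e4 : 2 ^ (2 * m) ≤ 2 ^ (2 * m) * 2 ^ ρ := Nat.le_mul_of_pos_right _ (by positivity)
    have e5 : 2 ^ ρ ≤ 2 ^ (2 * m) * 2 ^ ρ := Nat.le_mul_of_pos_left _ (by positivity)
    have e6 : 65536 * (2 ^ (2 * m) * 2 ^ ρ) ≤ 2 ^ (2 * m + 16) * (2 ^ (2 * m) * 2 ^ ρ) := by
      apply Nat.mul_le_mul_right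
      calc 65536 = 2 ^ 16 := by norm_num
        _ ≤ _ := Nat.pow_le_pow_right (by norm_num) (by omega)
    have e7 : 0 < 2 ^ (2 * m) := by positivity
    have e8 : 2 ^ (4 * m + 17 + ρ) = 2 ^ (4 * m + 16 + ρ) + 2 ^ (4 * m + 16 + ρ) := by ring
    omega
  calc 2 * 2 ^ (2 * m + 8) * (2 ^ (2 * m + 7) + 1) * ((1 + m * 2 ^ m) *
      ((2 * (2 ^ (m + 1) * (2 ^ (m + 1) * (m + 1)))) *
        (2 * 2 ^ (2 * m + 8) * ((2 * (m ^ 2 + 1) + 2 * r + 2 * (2 ^ (3 * m + 9) *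
          (19 * m + 55 + ρ))) + 1) * (2 ^ (2 * m + 7) * 2 ^ m))))
      ≤ 2 ^ (2 * m + 9) * 2 ^ (2 * m + 8) * (2 ^ (2 * m) * (2 ^ (3 * m + 3) *
        (2 ^ (2 * m + 9) * 2 ^ (4 * m + 17 + ρ) * (2 ^ (2 * m + 7) * 2 ^ m)))) := by
        rw [h1]
        gcongr
    _ = _ := by ring

/-- A short program accepts few paths. -/
theorem few_paths [Fintype R] {m ρ : ℕ} (hm : 1 ≤ m) (hρ : Fintype.card R ≤ 2 ^ ρ)
    (Λ : Lay V (2 ^ (18 * m + 53 + ρ)) (2 ^ (m + 1)) s t) (hst : s ≠ t) {P : List (Step V R)}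
    (hlen : P.length ≤ 2 ^ (m ^ 2)) {out : R}
    (hs : ∀ A B : Finset V, s ∈ A → t ∈ B → Disjoint A B → out ∉ exec (gr Λ A B) P ∅) (u v : Fin (2 ^ (18 * m + 53 + ρ)))
    (Acc : Finset (Tr (2 ^ (18 * m + 53 + ρ)) (m + 1)))
    (hAcc : ∀ z ∈ Acc, out ∈ exec (pe Λ 0 (m + 1) u z v) P ∅) :
    #Acc * (16 * 2 ^ m) ≤ nT (2 ^ (18 * m + 53 + ρ)) (m + 1) := by
  have hm1 := lin_le_two_pow m
  obtain ⟨a, ha⟩ : ∃ a, a = 18 * m + 53 + ρ := ⟨_, rfl⟩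
  obtain ⟨E, hE⟩ : ∃ E, E = 2 * (m ^ 2 + 1) + 2 * Fintype.card R + 2 * (2 ^ (3 * m + 9) *
          (19 * m + 55 + ρ)) := ⟨_, rfl⟩
  have hpar := param hm hρ
  rw [← hE] at hpar
  have hFF : FF P.length (Fintype.card R) (2 ^ (3 * m + 9))
      ((2 ^ (m + 1) + 1) * 2 ^ (18 * m + 53 + ρ)) ≤ 2 ^ E := by
    rw [hE]
    apply FF_le hlen
    have h1 : 2 ^ (19 * m + 55 + ρ) = 2 ^ (m + 2) * 2 ^ (18 * m + 53 + ρ) := by
      rw [← pow_add]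
      congr 1
      ring
    have h2 : 2 ^ (m + 2) = 2 ^ (m + 1) + 2 ^ (m + 1) := by ring
    have h3 : 2 ^ (m + 1) = 2 ^ m + 2 ^ m := by ring
    have h4 : 1 ≤ 2 ^ (18 * m + 53 + ρ) := Nat.one_le_two_pow
    rw [h1]
    calc (2 ^ (m + 1) + 1) * 2 ^ (18 * m + 53 + ρ) + 1 ≤
        (2 ^ (m + 1) + 1) * 2 ^ (18 * m + 53 + ρ) + 1 * 2 ^ (18 * m + 53 + ρ) := by omega
      _ = (2 ^ (m + 1) + 1 + 1) * 2 ^ (18 * m + 53 + ρ) := by ring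
      _ ≤ _ := Nat.mul_le_mul_right _ (by omega)
  obtain ⟨C, hC, hC'⟩ := Sit.exists (Λ := Λ) (P := P) (K := 2 ^ (2 * m + 7)) (κ := 2 ^ (3 * m + 9))
    (D := 2 ^ (2 * m + 8)) (d := 2 * 2 ^ (2 * m + 8) * (E + 1)) (g := 2 ^ m) (k := m)
    (Q := 1 + m * 2 ^ m) (by positivity) (by
      calc 32 * 2 ^ m = 2 ^ (m + 5) := by ring
        _ ≤ _ := Nat.pow_le_pow_right (by norm_num) (by omega)) (by
      apply le_of_eq
      rw [← pow_mul, pow_add 2 (2 * m) 7, mul_comm m 2]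
      ring) (by
      apply le_of_eq
      rw [← pow_mul, pow_add 2 (2 * m) 8, mul_comm m 2]
      ring) (lt_of_le_of_lt (Nat.mul_le_mul_right _ hFF) (hit_num (by positivity))) hpar
  have h := hC.few (i := m) le_rfl le_rfl rfl (by rw [← pow_mul, ← sq]; exact hlen) (by
      have h1 : 2 ^ (2 * m + 7) * 2 ^ (m + 1) = 2 ^ (3 * m + 8) := by
        rw [← pow_add]
        congr 1
        ring
      have h2 : 2 ^ (3 * m + 9) = 2 ^ (3 * m + 8) + 2 ^ (3 * m + 8) := by ring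
      have h3 : 2 ^ 1 ≤ 2 ^ (3 * m + 8) := Nat.pow_le_pow_right (by norm_num) (by omega)
      rw [h1]
      omega) (hC' _ le_rfl).1 (hC' _ le_rfl).2 hst hs u v Acc hAcc
  rw [div_mul_eq_mul_div, one_mul, le_div_iff₀ (by positivity)] at h
  exact_mod_cast h

end Pool.Agent.L5helper51.SZ
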