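import Pool.Agent.L5helper51.SZ.Main

/-!
# The induction over the length of the paths
-/

namespace Pool.Agent.L5helper51.SZ

open Pool.Agent.L5helper51.SX (Lay Tr nT nT_zero nT_succ nT_pos pth pth_zero pth_last pth_left
  pth_right card_pth)

open Finset

variable {V R : Type*} {M ℓ : ℕ} {s t : V} {Λ : Lay V M ℓ s t}

theorem Sit.step {P : List (Step V R)} {C : ℕ → Finset V × Finset V}
    {K κ D g k Q : ℕ} (S : Sit Λ P C K κ D g k Q) {n m c0 : ℕ} (hc : c0 + g ≤ Q)
    (hm : m ≤ k) (hyp : Hyp Λ P (C c0) K κ n m (1 / (16 * g))) :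
    Hyp Λ P (C (c0 + g)) K κ (g * n) (m + 1) (1 / (16 * g)) := by
  classical
  intro W hW hlen σ A B hA hB x u v hl hu hv hκ
  have hgN := S.hg
  have hg : (0 : ℝ) < g := by exact_mod_cast hgN
  have hg1 : (1 : ℝ) ≤ g := by exact_mod_cast hgN
  set δ : ℝ := 1 / (16 * g) with hδ
  have hδ0 : 0 ≤ δ := by positivity
  have hδ1 : δ ≤ 1 / 4 := by
    rw [hδ]
    apply one_div_le_one_div_of_le (by norm_num)
    linarith
  have hprod : ∀ j < g, (#(part Λ ((W.drop (j * n)).take n)
      (exec (gc Λ A B (C (c0 + j))) (W.take (j * n)) σ)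
      (exec (gc Λ A B (C (c0 + j + 1))) (W.take (j * n) ++ (W.drop (j * n)).take n) σ)
      A B x (m + 1) u v) : ℝ) ≤
      nT M m * nT M m * M * (2 / K + 4 * δ ^ 2 + 6 * (1 / D)) := by
    intro j hj
    refine S.part_le (Nat.le_add_right _ _) (by omega) hm hδ0 hδ1 hyp ?_ (List.length_take_le _ _)
      σ hA hB hl hu hv hκ
    rw [← List.take_add]
    exact ((List.take_prefix _ _).isInfix).trans hW
  have hsub : comp Λ (C (c0 + g)) W σ A B x (m + 1) u v ⊆ (range g).biUnion (fun j =>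
      part Λ ((W.drop (j * n)).take n) (exec (gc Λ A B (C (c0 + j))) (W.take (j * n)) σ)
      (exec (gc Λ A B (C (c0 + j + 1))) (W.take (j * n) ++ (W.drop (j * n)).take n) σ)
      A B x (m + 1) u v) := by
    intro z hz
    rw [mem_comp] at hz
    by_contra hcon
    apply hz
    have h1 : ∀ j ≤ g, exec (gr Λ A B ∪ pe Λ x (m + 1) u z v) (W.take (j * n)) σ ⊆
        exec (gc Λ A B (C (c0 + j))) (W.take (j * n)) σ := by
      intro j
      induction j with
      | zero =>
        intro _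
        rw [zero_mul, List.take_zero, exec_nil, exec_nil]
      | succ j ih =>
        intro hj
        have h2 := ih (by omega)
        by_contra hcon2
        apply hcon
        rw [mem_biUnion]
        refine ⟨j, mem_range.2 (by omega), ?_⟩
        rw [mem_part]
        intro h3
        apply hcon2
        have h4 : (j + 1) * n = j * n + n := by ring
        rw [h4, List.take_add]
        refine Set.Subset.trans ?_ h3
        rw [exec_append]
        exact exec_mono _ h2 subset_rfl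
    have h5 := h1 g le_rfl
    rwa [List.take_of_length_le hlen] at h5
  have h1 : (#(comp Λ (C (c0 + g)) W σ A B x (m + 1) u v) : ℝ) ≤
      g * (nT M m * nT M m * M * (2 / K + 4 * δ ^ 2 + 6 * (1 / D))) := by
    calc (#(comp Λ (C (c0 + g)) W σ A B x (m + 1) u v) : ℝ)
        ≤ ((∑ j ∈ range g, #(part Λ ((W.drop (j * n)).take n)
          (exec (gc Λ A B (C (c0 + j))) (W.take (j * n)) σ)
          (exec (gc Λ A B (C (c0 + j + 1))) (W.take (j * n) ++ (W.drop (j * n)).take n) σ)
          A B x (m + 1) u v) : ℕ) : ℝ) := by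
          rw [Nat.cast_le]
          exact (card_le_card hsub).trans card_biUnion_le
      _ = ∑ j ∈ range g, (#(part Λ ((W.drop (j * n)).take n)
          (exec (gc Λ A B (C (c0 + j))) (W.take (j * n)) σ)
          (exec (gc Λ A B (C (c0 + j + 1))) (W.take (j * n) ++ (W.drop (j * n)).take n) σ)
          A B x (m + 1) u v) : ℝ) := Nat.cast_sum _ _
      _ ≤ ∑ _j ∈ range g, (nT M m * nT M m * M * (2 / K + 4 * δ ^ 2 +
          6 * (1 / D)) : ℝ) :=
          Finset.sum_le_sum (fun j hj => hprod j (mem_range.1 hj))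
      _ = _ := by rw [sum_const, card_range, nsmul_eq_mul]
  refine h1.trans ?_
  -- the numbers
  have hK : (128 * g ^ 2 : ℝ) ≤ K := by exact_mod_cast S.hK
  have hD : (256 * g ^ 2 : ℝ) ≤ D := by exact_mod_cast S.hD
  have hD0 : (0 : ℝ) < D := by exact_mod_cast S.hD0
  have hK0 : (0 : ℝ) < K := lt_of_lt_of_le (by positivity) hK
  have e1 : g * (2 / K : ℝ) ≤ 1 / (64 * g) := by
    rw [← mul_div_assoc, div_le_div_iff₀ hK0 (by positivity)]
    nlinarith
  have e2 : g * (4 * δ ^ 2) = 1 / (64 * g) := by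
    rw [hδ]
    field_simp
    norm_num
  have e3 : g * (6 * (1 / D : ℝ)) ≤ 1 / (42 * g) := by
    have h2 : g * (6 * (1 / D : ℝ)) = (6 * g) / D := by ring
    rw [h2, div_le_div_iff₀ hD0 (by positivity)]
    nlinarith
  have e4 : (1 : ℝ) / (64 * g) + 1 / (64 * g) + 1 / (42 * g) ≤ δ := by
    rw [hδ]
    have h2 : (1 : ℝ) / (64 * g) = (1 / 64) * (1 / g) := by rw [one_div_mul_one_div]
    have h3 : (1 : ℝ) / (42 * g) = (1 / 42) * (1 / g) := by rw [one_div_mul_one_div]
    have h4 : (1 : ℝ) / (16 * g) = (1 / 16) * (1 / g) := by rw [one_div_mul_one_div]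
    rw [h2, h3, h4]
    have h5 : (0 : ℝ) < 1 / g := by positivity
    linarith
  have e5 : g * (2 / K + 4 * δ ^ 2 + 6 * (1 / D)) ≤ δ := by
    have : g * (2 / K + 4 * δ ^ 2 + 6 * (1 / D : ℝ)) =
        g * (2 / K : ℝ) + g * (4 * δ ^ 2) + g * (6 * (1 / D : ℝ)) := by ring
    rw [this, e2]
    linarith
  have hT : (nT M (m + 1) : ℝ) = nT M m * M * nT M m := by
    rw [nT_succ]
    push_cast
    ring
  rw [hT]
  have h2 : (0 : ℝ) ≤ nT M m * nT M m * M := by positivity
  calc g * (nT M m * nT M m * M * (2 / K + 4 * δ ^ 2 + 6 * (1 / D)))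
      = nT M m * nT M m * M * (g * (2 / K + 4 * δ ^ 2 + 6 * (1 / D : ℝ))) := by ring
    _ ≤ nT M m * nT M m * M * δ := mul_le_mul_of_nonneg_left e5 h2
    _ = _ := by ring

theorem Sit.all {P : List (Step V R)} {C : ℕ → Finset V × Finset V}
    {K κ D g k Q : ℕ} (S : Sit Λ P C K κ D g k Q) :
    ∀ i : ℕ, i ≤ k → 1 + i * g ≤ Q → Hyp Λ P (C (1 + i * g)) K κ (g ^ i) (i + 1) (1 / (16 * g)) := by
  intro i
  induction i with
  | zero =>
    intro _ hQ W hW hlen σ A B hA hB x u v hl hu hv hκ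
    rw [zero_mul, add_zero]
    exact S.base (by omega) hW (by simpa using hlen) σ hA hB (by omega) (by simpa using hl) hu
      (by simpa using hv)
  | succ i ih =>
    intro hi hQ
    have h1 : 1 + (i + 1) * g = 1 + i * g + g := by ring
    rw [h1] at hQ ⊢
    have h2 : g ^ (i + 1) = g * g ^ i := by ring
    rw [h2]
    exact S.step hQ (by omega) (ih (by omega) (by omega))

/-- A short program accepts few paths. -/
theorem Sit.few {P : List (Step V R)} {C : ℕ → Finset V × Finset V}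
    {K κ D g k Q : ℕ} (S : Sit Λ P C K κ D g k Q) {i : ℕ} (hi : i ≤ k) (hQ : 1 + i * g ≤ Q)
    (hℓ : ℓ = 2 ^ (i + 1)) (hlen : P.length ≤ g ^ i) (hκ : 2 + K * 2 ^ (i + 1) ≤ κ)
    (hdis : Disjoint (C (1 + i * g)).1 (C (1 + i * g)).2) (hInn : Inn Λ (C (1 + i * g)))
    (hst : s ≠ t) {out : R}
    (hs : ∀ A B : Finset V, s ∈ A → t ∈ B → Disjoint A B → out ∉ exec (gr Λ A B) P ∅) (u v : Fin M) (Acc : Finset (Tr M (i + 1)))
    (hAcc : ∀ z ∈ Acc, out ∈ exec (pe Λ 0 (i + 1) u z v) P ∅) :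
    (#Acc : ℝ) ≤ 1 / (16 * g) * nT M (i + 1) := by
  classical
  have h := S.all i hi hQ P List.infix_rfl hlen ∅ {s} {t} (by
      intro o ho
      exact ⟨0, Nat.zero_le _, u, (mem_singleton.1 ho).trans (Λ.h0 u).symm⟩) (by
      intro o ho
      exact ⟨ℓ, le_rfl, u, (mem_singleton.1 ho).trans (Λ.hl u).symm⟩) 0 u v (by omega) (by rw [Λ.h0]; exact mem_singleton_self _)
      (by rw [zero_add, ← hℓ, Λ.hl]; exact mem_singleton_self _) (by simpa using hκ)
  refine le_trans ?_ h
  rw [Nat.cast_le]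
  apply card_le_card
  intro z hz
  rw [mem_comp]
  intro hsub
  have h1 : out ∈ exec (gr Λ {s} {t} ∪ pe Λ 0 (i + 1) u z v) P ∅ :=
    exec_mono P subset_rfl Set.subset_union_right (hAcc z hz)
  refine hs ({s} ∪ (C (1 + i * g)).1) ({t} ∪ (C (1 + i * g)).2)
    (mem_union_left _ (mem_singleton_self s)) (mem_union_left _ (mem_singleton_self t)) ?_ (hsub h1)
  have hLs : Λ.L s = 0 := Λ.L_s u
  have hLt : Λ.L t = ℓ := Λ.L_t u
  rw [disjoint_union_left, disjoint_union_right, disjoint_union_right]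
  refine ⟨⟨by simpa using hst, ?_⟩, ?_, hdis⟩
  · rw [disjoint_singleton_left]
    intro hmem
    obtain ⟨j, a, h3, h4, h5⟩ := hInn s (Or.inr hmem)
    have h6 := Λ.hL j h4.le a
    rw [← h5] at h6
    omega
  · rw [disjoint_singleton_right]
    intro hmem
    obtain ⟨j, a, h3, h4, h5⟩ := hInn t (Or.inl hmem)
    have h6 := Λ.hL j h4.le a
    rw [← h5] at h6
    omega

end Pool.Agent.L5helper51.SZ
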