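import Pool.Agent.L5helper51.SZ.Def
import Pool.Agent.L5helper51.SX.Elem

/-!
# The upper bound: from `(min, +)` programs to monotone programs
-/

namespace Pool.Agent.L5helper51.SZ

open Pool.Agent.L5helper51.SV (dist walkWeight)

variable {V R : Type*}

/-- The step on finiteness. -/
def toBool (S : SX.Step V R) : Step V R where
  x := S.x
  f := fun σ E => {a | ∃ m ∈ S.f a, ∀ z ∈ m.1, Sum.elim (fun b => b ∈ σ) (fun y => (S.x, y) ∈ E) z}
  mono := by
    rintro σ σ' E E' h1 h2 a ⟨m, hm, hz⟩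
    refine ⟨m, hm, fun z hz' => ?_⟩
    have h3 := hz z hz'
    rcases z with b | y
    · exact h1 h3
    · exact h2 h3

theorem toBool_elementary {S : SX.Step V R} (hS : S.Elementary) : (toBool S).Elementary := by
  obtain ⟨a, h1, h2⟩ := hS
  refine ⟨a, ?_, ?_⟩
  · intro b hb σ E
    simp only [toBool, Set.mem_ofPred_eq, h1 b hb, Set.mem_singleton_iff, exists_eq_left,
      List.mem_singleton, forall_eq, Sum.elim_inl]
  · rcases h2 with ⟨y, hy⟩ | ⟨c, hc⟩ | h | ⟨b, c, h⟩ | ⟨b, c, h⟩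
    · left
      refine ⟨y, fun σ E => ?_⟩
      simp only [toBool, Set.mem_ofPred_eq, hy, Set.mem_singleton_iff, exists_eq_left,
        List.mem_singleton, forall_eq, Sum.elim_inr]
    · right; left
      intro σ E
      simp only [toBool, Set.mem_ofPred_eq, hc, Set.mem_singleton_iff, exists_eq_left]
      simp
    · right; right; left
      intro σ E
      simp [toBool, h]
    · right; right; right; left
      refine ⟨b, c, fun σ E => ?_⟩
      simp only [toBool, Set.mem_ofPred_eq, h, Set.mem_insert_iff, Set.mem_singleton_iff,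
        exists_eq_or_imp, exists_eq_left, List.mem_singleton, forall_eq, Sum.elim_inl]
    · right; right; right; right
      refine ⟨b, c, fun σ E => ?_⟩
      simp [toBool, h]

open Classical in
/-- the weights of a graph -/
noncomputable def wt (H : Set (V × V)) : V × V → ℕ∞ := fun e => if e ∈ H then 0 else ⊤

theorem wt_ne {H : Set (V × V)} {e : V × V} : wt H e ≠ ⊤ ↔ e ∈ H := by
  classical
  unfold wt
  split_ifs with h
  · simp [h]
  · simp [h]

theorem sum_ne {ι : Type*} (f : ι → ℕ∞) : ∀ l : List ι, (l.map f).sum ≠ ⊤ ↔ ∀ z ∈ l, f z ≠ ⊤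
  | [] => by simp
  | z :: l => by
    rw [List.map_cons, List.sum_cons, ne_eq, ENat.add_eq_top, not_or, ← ne_eq, ← ne_eq,
      sum_ne f l]
    simp

theorem step_bool (H : Set (V × V)) (S : SX.Step V R) (σ : R → ℕ∞) :
    {a | S.exec (wt H) σ a ≠ ⊤} = Step.exec H {a | σ a ≠ ⊤} (toBool S) := by
  ext a
  change (⨅ m ∈ S.f a, ((m.1.map (Sum.elim σ (fun y => wt H (S.x, y)))).sum + (m.2 : ℕ∞))) ≠ ⊤ ↔
    ∃ m ∈ S.f a, ∀ z ∈ m.1, Sum.elim (fun b => b ∈ {a | σ a ≠ ⊤})
      (fun y => (S.x, y) ∈ {e | e ∈ H ∧ (e.1 = S.x ∨ e.2 = S.x)}) z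
  rw [ne_eq, iInf₂_eq_top, not_forall₂]
  apply exists_congr
  intro m
  rw [← exists_prop]
  apply exists_congr
  intro hm
  rw [ENat.add_eq_top, not_or, ← ne_eq, ← ne_eq, sum_ne]
  constructor
  · rintro ⟨h1, -⟩ z hz
    have h2 := h1 z hz
    rcases z with b | y
    · exact h2
    · exact ⟨wt_ne.1 h2, Or.inl rfl⟩
  · intro h
    refine ⟨fun z hz => ?_, ENat.natCast_ne_top _⟩
    have h2 := h z hz
    rcases z with b | y
    · exact h2
    · exact wt_ne.2 h2.1

theorem exec_bool (H : Set (V × V)) : ∀ (P : List (SX.Step V R)) (σ : R → ℕ∞),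
    {a | SX.exec (wt H) P σ a ≠ ⊤} = exec H (P.map toBool) {a | σ a ≠ ⊤}
  | [], _ => rfl
  | S :: P, σ => by
    rw [List.map_cons, exec_cons, ← step_bool, ← exec_bool H P]
    rfl

theorem reach_of_walk (H : Set (V × V)) (v : V) : ∀ (l : List V) (u : V),
    walkWeight (wt H) u l v ≠ ⊤ → Reach H u v
  | [], u, h => Relation.ReflTransGen.single (wt_ne.1 h)
  | x :: l, u, h => by
    rw [walkWeight, ne_eq, ENat.add_eq_top, not_or] at h
    exact Relation.ReflTransGen.head (wt_ne.1 h.1) (reach_of_walk H v l x h.2)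

theorem walk_of_reach {H : Set (V × V)} {u v : V} (h : Reach H u v) :
    u = v ∨ ∃ l, walkWeight (wt H) u l v ≠ ⊤ := by
  unfold Reach at h
  induction h using Relation.ReflTransGen.head_induction_on with
  | refl => exact Or.inl rfl
  | @head a c h1 _ ih =>
    right
    rcases ih with rfl | ⟨l, hl⟩
    · exact ⟨[], wt_ne.2 h1⟩
    · refine ⟨c :: l, ?_⟩
      rw [walkWeight, ne_eq, ENat.add_eq_top, not_or]
      exact ⟨wt_ne.2 h1, hl⟩

theorem dist_ne {H : Set (V × V)} {s t : V} (hst : s ≠ t) : dist (wt H) s t ≠ ⊤ ↔ Reach H s t := by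
  rw [SV.dist, ne_eq, iInf_eq_top, not_forall]
  constructor
  · rintro ⟨l, hl⟩
    exact reach_of_walk H t l s hl
  · intro h
    rcases walk_of_reach h with h | h
    · exact absurd h hst
    · exact h

/-- The upper bound. -/
theorem upper_bound {V : Type} [Fintype V] {s t : V} (hst : s ≠ t) {i : ℕ}
    (hi : 2 ^ i ≤ Fintype.card V) :
    ∃ (R : Type) (_ : Fintype R) (P : List (Step V R)) (out : R),
      (∀ S ∈ P, S.Elementary) ∧ (∀ H : Set (V × V), out ∈ exec H P ∅ ↔ Reach H s t) ∧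
      Fintype.card R ≤ 7 * (i + 1) * (Nat.log 2 (Fintype.card V) + 2) * (Fintype.card V / 2 ^ i) ∧
      P.length ≤ 128 * Fintype.card V ^ 9 * 2 ^ (i ^ 2) := by
  obtain ⟨R, hR, P, out, h1, h2, h3, h4⟩ := SX.upper_bound hst hi
  refine ⟨R, hR, P.map toBool, out, ?_, ?_, h3, by rw [List.length_map]; exact h4⟩
  · intro S hS
    obtain ⟨S', hS', rfl⟩ := List.mem_map.1 hS
    exact toBool_elementary (h1 S' hS')
  · intro H
    rw [← dist_ne hst, ← h2]
    have h5 := exec_bool H P (fun _ => ⊤)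
    have h6 : {a : R | (fun _ => ⊤ : R → ℕ∞) a ≠ ⊤} = ∅ := by
      ext a
      simp
    rw [h6] at h5
    rw [← h5]
    rfl

end Pool.Agent.L5helper51.SZ
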